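import Pool.Agent.KDT.StmtsJ

set_option autoImplicit false

/-!
# KDT, block Z, part Z: the steps of the zero estimate. Complete proofs in the docstrings.

`q` is always a generic Mumford vector over `U`, `t` a vector over `k`; `cl q + cl (emb U t) =
cl (cmp (g.coeff 4) q (emb U t))` (`JG.comp`), `g.coeff 4 = algebraMap k U (f.coeff 4)`.
Many rows use: (*) an element `c ∈ Jk` with `c = cl x`, `On g x`, is `cl (emb U t)` with `On f t` and
`x = emb U t` (`mem_k`, `cl_ne`, `cl_th`, `cl_inj`); so for `h ∈ Jk`, `Good g cl h q` gives `t` with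
`On f t`, `h = cl (emb U t)`, `rr (emb U t) q <> 0`, `ro (emb U t) q <> 0` (`rr`, `ro` are symmetric, CMA).
-/

namespace Pool.Agent.KDT.Z

open Polynomial H58Q Pool.Agent.SZT

/-- **Row TRD** (the translate of a curve has bounded degree; uses NRM, AVO, CPP, SUB, IRD, RTL, EMB, CMA).
PROOF. `q' = cmp (g.coeff 4) q (emb t)`, `cl q' = cl q + cl (emb t)`. `Gnr k q'`: otherwise (RTL) `q'` is
`k`-rational, `cl q = cl q' - cl (emb t) ∈ Jk`, so `q` is `k`-rational (*), against `Gnr k q`. Let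
`t- = ngv t`. (a) `rr q' (emb t-) = 0`: `A_q'` and `A_t` have a common root, which is some `a ∈ k` (the
roots of `A_t` are in `k`; `rr` is the product of the values of `A_q'` at the roots of `A_t`): then
`Φ' = X_1 - a X_0 + a^2` vanishes at `(q'0, q'1)`, irreducible of degree 1 (apply IRD (2)). (b)
`rr q' (emb t-) <> 0`: then `ro <> 0`, because `cl q' + cl (emb t-) = cl q` (`exc`, `cl_ne`, `cl_th`), and
`cmp q' (emb t-) = q` (`comp`, `cl_inj`). CPP over `F = k` for `t-`: `N, D`; SUB for `Φ` (`m = 2`, `N 0`, `N 1`):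
`G` over `k` of degree `<= 20 n` with `G(x) = D(x)^n Φ(cmp x t- 0, cmp x t- 1)` if `D(x) <> 0`. So
`G(q') = 0` (`Φ(q0, q1) = 0`). `G` is not 0 at some point: AVO over `U` for `Φ` mapped to `U` and
`emb t-`. NRM (`M = 20 n`, `F = k`): `Θ <> 0` over `k` of degree `<= C0` with `Θ(q'0, q'1) = 0`; IRD (2). -/
def TrdStatement : Prop :=
  ∀ n : ℕ, ∃ n' : ℕ, ∀ (k U : Type) [Field k] [Field U] [Algebra k U] (f : k[X]) (g : U[X]),
    Env k U f g → ∀ (J : Type) [AddCommGroup J] (th : Pt g → J) (cl : (Fin 4 → U) → J)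
      (act : (U ≃ₐ[k] U) → J →+ J) (Jk : AddSubgroup J), JK f g J th cl act Jk →
    ∀ (q : Fin 4 → U) (Φ : MvPolynomial (Fin 2) k), On g q → Gnr k q → Φ ≠ 0 → Φ.totalDegree ≤ n →
    Zr Φ (q 0) (q 1) → ∀ t : Fin 4 → k, On f t → rr q (emb U t) ≠ 0 → ro q (emb U t) ≠ 0 →
    Gnr k (cmp (g.coeff 4) q (emb U t)) ∧
    ∃ Φ' : MvPolynomial (Fin 2) k, Irreducible Φ' ∧ Φ'.totalDegree ≤ n' ∧
      Zr Φ' (cmp (g.coeff 4) q (emb U t) 0) (cmp (g.coeff 4) q (emb U t) 1)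

/-- **Row HSP** (specialisations and the stabiliser; uses TRS, EMB). PROOF. TRS:
`Spc (cmp q (emb t)) (cmp t' t)`. `cl (cmp q (emb t)) = cl q + cl (emb t) = act σ (cl q) = cl (σ q)`, so
`cmp q (emb t) = σ q` (`cl_inj`). A polynomial `G` over `k` with `G(q) = 0` has `G(σ q) = σ (G(q)) = 0`; so
`Spc q (cmp t' t)`. The other two statements: `comp` over `U` for `emb t'`, `emb t` and EMB. -/
def HspStatement : Prop :=
  ∀ (k U : Type) [Field k] [Field U] [Algebra k U] (f : k[X]) (g : U[X]),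
    Env k U f g → ∀ (J : Type) [AddCommGroup J] (th : Pt g → J) (cl : (Fin 4 → U) → J)
      (act : (U ≃ₐ[k] U) → J →+ J) (Jk : AddSubgroup J), JK f g J th cl act Jk →
    ∀ (q : Fin 4 → U) (t t' : Fin 4 → k), On g q → On f t → On f t' →
    cl (emb U t) ∈ Stb cl act q → rr q (emb U t) ≠ 0 → ro q (emb U t) ≠ 0 → Spc q t' →
    rr t' t ≠ 0 → ro t' t ≠ 0 →
    On f (cmp (f.coeff 4) t' t) ∧ Spc q (cmp (f.coeff 4) t' t) ∧
      cl (emb U (cmp (f.coeff 4) t' t)) = cl (emb U t') + cl (emb U t)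

/-- **Row SBG** (the stabiliser is a group). PROOF. `act σ h = h` for `h ∈ Jk`. `act (σ τ) = act σ ∘ act τ`:
both are additive and agree on all `th z` (`act_th`) and `cl x` (`act_cl`), which are all elements
(`cover`). So `act σ (cl q) = cl q + h`, `act τ (cl q) = cl q + h'` give
`act (τ σ) (cl q) = act τ (cl q + h) = cl q + h' + h`; `act σ⁻¹ (cl q) = cl q - h`; `act 1 = id`. -/
def SbgStatement : Prop :=
  ∀ (k U : Type) [Field k] [Field U] [Algebra k U] (f : k[X]) (g : U[X]),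
    Env k U f g → ∀ (J : Type) [AddCommGroup J] (th : Pt g → J) (cl : (Fin 4 → U) → J)
      (act : (U ≃ₐ[k] U) → J →+ J) (Jk : AddSubgroup J), JK f g J th cl act Jk →
    (∀ σ τ : U ≃ₐ[k] U, ∀ c, act (σ * τ) c = act σ (act τ c)) ∧
    ∀ q : Fin 4 → U, On g q → ∃ H : AddSubgroup J, ∀ h, h ∈ H ↔ h ∈ Jk ∧ h ∈ Stb cl act q

/-- **Row STB** (start; uses TWO, GNZ, GUP, IRD, LFF, EMB). PROOF. `N = #Γ`. All but
`n (sqrt N + 1) + 8 sqrt N + 9 <= N/2` elements `γ` of `Γ` are `cl (emb t)` with `On f t`, `Φ0(t0, t1) = 0`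
and `t0^2 <> 4 t1`: if `t0^2 = 4 t1`, then `A_t = (X - a)^2` and `γ = th z + th z` (`split` for `emb t`;
TWO (ii) with `c = 0`). `Φ0` is not constant, it has at most `n` irreducible factors up to units (UFD,
degrees add); one factor `Φ` vanishes at `>= N/(2n)` of these `(t0, t1)`. GNZ: a generic zero `(s, p)` of
`Φ`; `s^2 <> 4 p`: otherwise `Φ` divides `X_0^2 - 4 X_1` (IRD), so `t0^2 = 4 t1`. GUP (2): every such `t`
is a specialisation of some `q` with `On g q`, `q0 = s`, `q1 = p`; by LFF (over `U`) there are at most 4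
such `q`: one of them serves `>= N/(8n)` of the `γ`. -/
def StbStatement : Prop :=
  ∀ n : ℕ, ∃ N0 : ℕ, ∀ (k U : Type) [Field k] [Field U] [Algebra k U] (f : k[X]) (g : U[X]),
    Env k U f g → ∀ (J : Type) [AddCommGroup J] (th : Pt g → J) (cl : (Fin 4 → U) → J)
      (act : (U ≃ₐ[k] U) → J →+ J) (Jk : AddSubgroup J), JK f g J th cl act Jk →
    ∀ Φ0 : MvPolynomial (Fin 2) k, Φ0 ≠ 0 → Φ0.totalDegree ≤ n →
    ∀ Γ : AddSubgroup J, Finite Γ → Γ ≤ Jk → N0 ≤ Nat.card Γ →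
    {γ : J | γ ∈ Γ ∧ ¬ ∃ t : Fin 4 → k, On f t ∧ γ = cl (emb U t) ∧ Zr Φ0 (t 0) (t 1)}.ncard
      ≤ n * (Nat.sqrt (Nat.card Γ) + 1) →
    ∃ (q : Fin 4 → U) (Φ : MvPolynomial (Fin 2) k) (S : Finset J), On g q ∧ Gnr k q ∧
      q 0 ^ 2 ≠ 4 * q 1 ∧ Irreducible Φ ∧ Φ.totalDegree ≤ n ∧ Zr Φ (q 0) (q 1) ∧
      (∀ γ ∈ S, γ ∈ Γ ∧ ∃ t : Fin 4 → k, On f t ∧ γ = cl (emb U t) ∧ Spc q t) ∧
      Nat.card Γ ≤ 8 * (n + 1) * S.card

/-- **Row STC** (many translates lie on the same plane curve; uses TRD, TRS, CNB, LFF, BEZ, PIG, EMB,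
CMA). PROOF. `N = #Γ`, `δ = 6 (sqrt(2N) + 3)`. `T0` = the `τ ∈ Γ` with `Good g cl τ q`: `#T0 >= N - δ` (CNB for
`c = 0`, `t = q`); for `τ ∈ T0`: `τ = cl (emb t)`, `rr q (emb t) <> 0`, `ro <> 0` (see (*)), `q^τ = cmp q (emb t)`.
TRD: `Gnr k q^τ`, `Φ_τ` irreducible of degree `<= n'`, zero at `(q^τ 0, q^τ 1)`. For `γ ∈ S`, `γ = cl (emb t_γ)`,
`Spc q t_γ`, with `Good g cl γ (emb t)` (all but `δ`, CNB for `emb t`): TRS: `Spc q^τ (cmp t_γ t)`, so
`Φ_τ` vanishes at the plane point of `cmp t_γ t` (apply `Spc` to `Φ_τ(X_0, X_1)`), and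
`cl (emb (cmp t_γ t)) = γ + τ ∈ Γ`. `P` = the plane points `(x0, x1)` of all `x` over `k` with `On f x`,
`cl (emb x) ∈ Γ`: `#P <= N` (`cl_inj`). `Z_τ` = the points of `P` on `Φ_τ`: the `γ + τ` are different and
at most 4 vectors lie over a plane point (LFF over `k`), so `#Z_τ >= (N/m - δ)/4 >= N/(8m) =: a`. `r` =
associated (`Associated (Φ_τ) (Φ_τ')`); if not associated, then `Φ_τ` does not divide `Φ_τ'` (irreducible)
and BEZ gives `#(Z_τ ∩ Z_τ') <= 4 n'^4`. PIG with `R = 16 m + 1` (`R a >= 2N`, rounding: take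
`R = 32 m`; `N + R^2 4 n'^4 < R a` for `N >= N0`): `τ1 ∈ T0` such that `>= #T0/R` of the `τ` have `Φ_τ` associated to
`Φs = Φ_τ1`, so `Φs` vanishes at their points; `#T0 >= N/2`, `m1 = 2R`. -/
def StcStatement : Prop :=
  ∀ n m : ℕ, ∃ m1 N0 : ℕ, ∀ (k U : Type) [Field k] [Field U] [Algebra k U] (f : k[X]) (g : U[X]),
    Env k U f g → ∀ (J : Type) [AddCommGroup J] (th : Pt g → J) (cl : (Fin 4 → U) → J)
      (act : (U ≃ₐ[k] U) → J →+ J) (Jk : AddSubgroup J), JK f g J th cl act Jk →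
    ∀ (q : Fin 4 → U) (Φ : MvPolynomial (Fin 2) k), On g q → Gnr k q → Φ ≠ 0 → Φ.totalDegree ≤ n →
    Zr Φ (q 0) (q 1) → ∀ Γ : AddSubgroup J, Finite Γ → Γ ≤ Jk → N0 ≤ Nat.card Γ →
    ∀ S : Finset J,
    (∀ γ ∈ S, γ ∈ Γ ∧ ∃ t : Fin 4 → k, On f t ∧ γ = cl (emb U t) ∧ Spc q t) →
    Nat.card Γ ≤ m * S.card →
    ∃ (Φs : MvPolynomial (Fin 2) k) (T : Finset J), Irreducible Φs ∧ Nat.card Γ ≤ m1 * T.card ∧
      ∀ τ ∈ T, τ ∈ Γ ∧ ∃ t : Fin 4 → k, On f t ∧ τ = cl (emb U t) ∧ rr q (emb U t) ≠ 0 ∧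
        ro q (emb U t) ≠ 0 ∧ Gnr k (cmp (g.coeff 4) q (emb U t)) ∧
        Zr Φs (cmp (g.coeff 4) q (emb U t) 0) (cmp (g.coeff 4) q (emb U t) 1)

/-- **Row STD** (the stabiliser is large; uses EXT, LFF, SBG). PROOF. `T` not empty, `τ0 ∈ T`. For `τ ∈ T` let
`q^τ = cmp q (emb t_τ)`, `cl q^τ = cl q + τ`. EXT: `σ_τ` with `σ_τ(q^τ0 0) = q^τ 0`, `σ_τ(q^τ0 1) = q^τ 1`.
`λ(τ) = σ_τ⁻¹ q^τ` is a point of `g` (`act_cl`) over the plane point of `q^τ0`: at most 4 values (LFF over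
`U`). So for `>= #T/4` of the `τ` the value is the same `λ`; fix one of them, `τ1`. Then
`q^τ = σ_τ σ_τ1⁻¹ q^τ1`, so `act σ (cl q + τ1) = cl q + τ` with `σ = σ_τ σ_τ1⁻¹`, and
`act σ (cl q) = cl q + (τ - τ1)` (`act_k`). The differences `τ - τ1` are different elements of `Γ`. -/
def StdStatement : Prop :=
  ∀ (k U : Type) [Field k] [Field U] [Algebra k U] (f : k[X]) (g : U[X]),
    Env k U f g → ∀ (J : Type) [AddCommGroup J] (th : Pt g → J) (cl : (Fin 4 → U) → J)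
      (act : (U ≃ₐ[k] U) → J →+ J) (Jk : AddSubgroup J), JK f g J th cl act Jk →
    ∀ (q : Fin 4 → U), On g q → ∀ Γ : AddSubgroup J, Finite Γ → Γ ≤ Jk →
    ∀ (Φs : MvPolynomial (Fin 2) k) (T : Finset J), Irreducible Φs →
    (∀ τ ∈ T, τ ∈ Γ ∧ ∃ t : Fin 4 → k, On f t ∧ τ = cl (emb U t) ∧ rr q (emb U t) ≠ 0 ∧
      ro q (emb U t) ≠ 0 ∧ Gnr k (cmp (g.coeff 4) q (emb U t)) ∧
      Zr Φs (cmp (g.coeff 4) q (emb U t) 0) (cmp (g.coeff 4) q (emb U t) 1)) →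
    T.card ≤ 4 * {h : J | h ∈ Γ ∧ h ∈ Stb cl act q}.ncard

/-- **Row STF** (a large finite stabiliser is infinite; uses GUP, INP, TRD, TRS, HSP, CNB, LFF, BEZ, EXT,
EMB, CMA, SBG). PROOF. `N = #H`, `δ = 6 (sqrt(2N) + 3)`. (0) `X_0^2 - 4 X_1` is not divisible by `Φ`
(`q0^2 <> 4 q1`); by INP and GUP (1) there are infinitely many `k`-points `(s0, p0)` of `Φ` with
`s0^2 <> 4 p0`, each carries a specialisation `t'` of `q`: an infinite set `E` of vectors `t'` over `k`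
with `On f t'`, `Spc q t'`. Fix `x2 ∈ E`, `c2 = cl (emb x2)`. Let `x1 ∈ E`, `c1 = cl (emb x1)`. (1) CNB
(`c = c1 - c2`, `t = q`): some `h0 ∈ H` with `Good g cl (c1 - c2 + h0) q` (`δ < N`); put
`γ = c1 - c2 + h0 = cl (emb y)`, `On f y` (see (*), `γ ∈ Jk`). `q' = cmp q (emb y)`; TRD: `Gnr k q'`, `Φ'`
irreducible of degree `<= n'`, zero at `(q'0, q'1)`. (2) For `h ∈ H` with `Good g cl h q`,
`Good g cl h (emb x2)` (CNB twice), HSP for `t' = x2`: a vector `x_h` over `k`, `Spc q x_h`,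
`cl (emb x_h) = c2 + h`; if also `Good g cl (c2 + h) (emb y)` (CNB): TRS: `Spc q' (cmp x_h y)`: so `Φ'`
vanishes at the plane point of `cmp x_h y`, the vector of `c2 + h + γ = c1 + (h + h0)`. (3) For
`h' = h + h0 ∈ H` with `Good g cl h' q`, `Good g cl h' (emb x1)`: HSP for `t' = x1`: the vector of
`c1 + h'` is a specialisation of `q`, so `Φ` vanishes at its plane point. (4) So `Φ` and `Φ'` have
`>= (N - 5 δ)/4` common points (LFF over `k`: 4 to 1) `> 4 max(n, n')^4` for `N >= b`: by BEZ `Φ | Φ'`, both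
irreducible, so `Φ(q'0, q'1) = 0`. EXT: `σ` with `σ(q0) = q'0`, `σ(q1) = q'1`; `λ(x1) = σ⁻¹ q'` is one of at
most 4 points over `(q0, q1)`. (5) Infinitely many `x1 ∈ E` have the same `λ`. For two of them, with
`γ, γ'`, `σ, σ'`: `cl q + γ' = act (σ' σ⁻¹) (cl q + γ)`, so `γ' - γ ∈ Stb` (`act_k`). Fix `γ`; `γ'` takes
infinitely many values (`γ' = c1' - c2 + h0'`, `c1'` takes infinitely many values, `h0' ∈ H` finite). -/
def StfStatement : Prop :=
  ∀ n : ℕ, ∃ b : ℕ, ∀ (k U : Type) [Field k] [Field U] [Algebra k U] (f : k[X]) (g : U[X]),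
    Env k U f g → ∀ (J : Type) [AddCommGroup J] (th : Pt g → J) (cl : (Fin 4 → U) → J)
      (act : (U ≃ₐ[k] U) → J →+ J) (Jk : AddSubgroup J), JK f g J th cl act Jk →
    ∀ (q : Fin 4 → U) (Φ : MvPolynomial (Fin 2) k), On g q → Gnr k q → q 0 ^ 2 ≠ 4 * q 1 →
    Irreducible Φ → Φ.totalDegree ≤ n → Zr Φ (q 0) (q 1) →
    ∀ H : AddSubgroup J, Finite H → (∀ h ∈ H, h ∈ Jk ∧ h ∈ Stb cl act q) → b ≤ Nat.card H →
    {h : J | h ∈ Jk ∧ h ∈ Stb cl act q}.Infinite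

/-- **Row STG** (the stabiliser lies on a curve of bounded degree; uses CPP, SUB, NRM, AVO, KBS, CMA).
PROOF. CPP over the field `F = U` with `f4 = g.coeff 4` and `t := q`: `N, D` over `U`. SUB for `Φ` mapped to
`U`, `m = 2`: `G` with `G(x) = D(x)^n Φ(cmp x q 0, cmp x q 1)` if `D(x) <> 0`; `G' = D G` of degree
`<= 20 n + 20`. If `t` over `k` has `On f t`, `act σ (cl q) = cl q + cl (emb t)` and `D(emb t) <> 0`:
`cl (cmp (emb t) q) = cl (emb t) + cl q = cl (σ q)`, so `cmp (emb t) q = σ q` and `Φ(cmp 0, cmp 1) =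
σ (Φ(q0, q1)) = 0`; so `G'(emb t) = 0`, also if `D(emb t) = 0`. `G'` is not 0 at some point: AVO over `U` for
`Φ` and `t := q`. NRM for `F = U`, `f := g` (squarefree: `f` is separable): `Θ <> 0` over `U` of degree
`<= C0` with `Θ(t0, t1) = 0` for all these `t` (`φ = id`). KBS. -/
def StgStatement : Prop :=
  ∀ n : ℕ, ∃ B : ℕ, ∀ (k U : Type) [Field k] [Field U] [Algebra k U] (f : k[X]) (g : U[X]),
    Env k U f g → ∀ (J : Type) [AddCommGroup J] (th : Pt g → J) (cl : (Fin 4 → U) → J)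
      (act : (U ≃ₐ[k] U) → J →+ J) (Jk : AddSubgroup J), JK f g J th cl act Jk →
    ∀ (q : Fin 4 → U) (Φ : MvPolynomial (Fin 2) k), On g q → Φ ≠ 0 → Φ.totalDegree ≤ n →
    Zr Φ (q 0) (q 1) →
    ∃ R : MvPolynomial (Fin 2) k, R ≠ 0 ∧ R.totalDegree ≤ B ∧
      ∀ t : Fin 4 → k, On f t → cl (emb U t) ∈ Stb cl act q → MvPolynomial.eval ![t 0, t 1] R = 0

/-- **Row ZFI** (the zero estimate; uses NRM, TDO, JKE, FUN, STB, STC, STD, SBG, STF, STG, UBT.DedStmt,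
EMB). PROOF. `e, K, f, P, I, N` as in ZERO. (1) `kum f (pA q) (pB q) = (1, q0, q1, q3^2 - q0^3 + q0 q1 -
f4 q0^2 - f3 q0 - f2)`, so `P(kum)` is a polynomial `G` over `K` in `q` of degree `<= 3e`; NRM over
`F = K`: `Φ0 <> 0` over `K` of degree `<= C0(3e)` vanishing at `(q0, q1)` whenever `P(kum) = 0`. (2)
`k = AlgebraicClosure K`, `U` from TDO, `Env k U (f.map) g`; `J, .., ι` from JKE, `m : J(K) -> J(k)`
from FUN (`K -> k`), both injective. `c` = the class of `I`; `Γ = ` multiples of `ι (m c)`: `Γ <= Jk`,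
cyclic of order exactly `N` (`I^j` principal iff `N | j`). (3) If `A, B` are as in the hypothesis for
`j`, then `t = (-A_1, A_0, B_0, B_1)` mapped to `k` has `On`, `cl (emb t) = ι (m (j c))`
(`clI (MI f A B)`, SameCl), `Φ0(t0, t1) = 0`. So the exceptional set of STB has at most
`e (sqrt N + 1) <= 2 e (Nat.sqrt N + 1)` elements. `n = max (C0(3e)) (2e)`. (4) STB (`N >= N0`): `q, Φ, S`,
STC with `m = 8(n+1)`: `Φs, T`, `N <= m1 #T`; STD: `N <= 4 m1 #(Γ ∩ Stb)`; `Γ ∩ Stb = Γ ∩ H0`, `H0` the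
subgroup of SBG. STF for `H = Γ ∩ H0` (`#H >= b` if `N >= 4 m1 b`): `H0` is infinite. STG: `R`. (5) `Thin B f`:
the field `k`, the curve `f.map`, the subgroup `ι⁻¹(H0)` of the class group (infinite because
`H0 ⊆ Jk = ι.range`), `Ψ = R`: for `Mum (f.map) A B'` of degree 2 the vector `t = (-A_1, A_0, B'_0, B'_1)` has
`pA t = A`, `pB t = B'`, `ι (class) = cl (emb t)`. `B = max` of the bounds. -/
def ZfiStatement : Prop := Pool.Agent.KDT.ZeroStatement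

end Pool.Agent.KDT.Z
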