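import Pool.Agent.KDT.StmtsP

set_option autoImplicit false

/-!
# KDT, block Z, part M: Mumford vectors (composition, specialisation, norm) and counting in the group.
Complete proofs in the docstrings.
-/

namespace Pool.Agent.KDT.Z

open Polynomial H58Q Pool.Agent.SZT

/-- **Row CMA** (composition of Mumford vectors). Notation: `q = (s, p, b0, b1)`, `t = (S, P, c0, c1)`,
`u = S - s`, `v = p - P`, `e0 = c0 - b0`, `e1 = c1 - b1`, `r = rr = v^2 + u v S + u^2 P`,
`ρ = ro = e1 v - u e0`, `μ = mu = (u S + v) e0 + u P e1`. PROOF. `A_q = A_t + u X + v`. With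
`M = m1 X + m0`, `m1 = ρ/r`, `m0 = μ/r`: `lin = B_q + A_q M` (coefficients by `ring`), and modulo `A_t`:
`A_q M = (u X + v)(m1 X + m0) = [(u S + v) m1 + u m0] X + [- u P m1 + v m0] = e1 X + e0`
(`X^2 = S X - P`; `field_simp; ring`), so `lin = B_t` mod `A_t`. Coprime: if `α1, α2` are the roots of
`A_t` (in a closure), `r = (u α1 + v)(u α2 + v) = A_q(α1) A_q(α2)`; or explicitly
`(u X + v)(u (S - X) + v) = r` mod `A_t`, so `A_q (u (S - X) + v) = r` mod `A_t`. So `A_q A_t` divides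
`lin^2 - f`. If `ρ <> 0`: `lin^2 - f` has degree 6 and leading coefficient `l3^2`, the quotient by
`A_q A_t` is `l3^2 (X^2 - c X + d)`; the coefficients of `X^5`, `X^4` of
`lin^2 - f = l3^2 X^6 + (2 l3 l2 - 1) X^5 + (l2^2 + 2 l3 l1 - f4) X^4 + ..` and
`A_q A_t = X^4 - (s + S) X^3 + (p + P + s S) X^2 - ..` give `c = cs`, `d = cp`. With `A' = X^2 - c X + d`:
`X^2 = c X - d`, `X^3 = (c^2 - d) X - c d` mod `A'`, so `lin = - pB (cmp ..)` mod `A'`, and
`pB (cmp)^2 = lin^2 = f` mod `A'`. If `ρ = 0`: `lin` has degree `<= 2`, `f - lin^2` is monic of degree 5,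
divisible by `A_q A_t`. -/
def CmaStatement : Prop :=
  (∀ (F : Type) [Field F] (q t : Fin 4 → F), rr q t = rr t q ∧ ro q t = ro t q) ∧
  ∀ (F : Type) [Field F] (f : F[X]) (q t : Fin 4 → F), f.Monic → f.natDegree = 5 → On f q →
    On f t → rr q t ≠ 0 →
    pA q ∣ lin q t - pB q ∧ pA t ∣ lin q t - pB t ∧ IsCoprime (pA q) (pA t) ∧
    (ro q t ≠ 0 → lin q t ^ 2 - f =
        C (l3 q t ^ 2) * (pA q * pA t * pA (cmp (f.coeff 4) q t)) ∧
      pA (cmp (f.coeff 4) q t) ∣ pB (cmp (f.coeff 4) q t) + lin q t ∧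
      On f (cmp (f.coeff 4) q t)) ∧
    (ro q t = 0 → ∃ a : F, f - lin q t ^ 2 = pA q * pA t * (X - C a))

/-- **Row CPP** (the composition is rational of bounded degree). PROOF. In the four variables
`q = (s, p, b0, b1)`, with `t` fixed: `r, ρ, μ` have degree `<= 2`. Common denominator `D = r ρ^4`
(degree `<= 10`): `cs = N_s/ρ^2` with `N_s = ρ^2 (-s - S) - 2 ρ (μ - s ρ) + r^2` (degree `<= 5`),
`cp = N_p/ρ^2` with `N_p = (μ - s ρ)^2 + 2 ρ (b1 r + p ρ - s μ) - f4 r^2 - N_s (s + S)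
- ρ^2 (p + P + s S)` (degree `<= 6`), and the last two components are
`[ρ N_s N_p + (μ - s ρ) N_p ρ^2 - (b0 r + p μ) ρ^4]/(r ρ^4)`,
`- [ρ (N_s^2 - N_p ρ^2) + (μ - s ρ) N_s ρ^2 + (b1 r + p ρ - s μ) ρ^4]/(r ρ^4)`: degrees `<= 14`. Write
them as explicit `MvPolynomial`s (`X i`, `C (t i)`), evaluate with `simp`, check with
`field_simp; ring`. -/
def CppStatement : Prop :=
  ∀ (F : Type) [Field F] (f4 : F) (t : Fin 4 → F),
    ∃ (N : Fin 4 → MvPolynomial (Fin 4) F) (D : MvPolynomial (Fin 4) F),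
      (∀ i, (N i).totalDegree ≤ 20) ∧ D.totalDegree ≤ 20 ∧
      ∀ (E : Type) [Field E] [Algebra F E] (q : Fin 4 → E),
        (MvPolynomial.aeval q D ≠ 0 ↔ rr q (emb E t) ≠ 0 ∧ ro q (emb E t) ≠ 0) ∧
        (MvPolynomial.aeval q D ≠ 0 → ∀ i, cmp (algebraMap F E f4) q (emb E t) i =
          MvPolynomial.aeval q (N i) / MvPolynomial.aeval q D)

/-- **Row EMB** (`k`-vectors over `U`). PROOF. `emb` commutes with all formulas (`map_sub`, `map_mul`,
`map_div₀` ..). `pA (emb t) = (pA t).map`, `pB` too; divisibility by a monic polynomial descends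
(the remainder of `(pB t)^2 - f` modulo `pA t` maps to the remainder over `U`;
`Polynomial.map_dvd_map` or `map_modByMonic`). -/
def EmbStatement : Prop :=
  ∀ (k U : Type) [Field k] [Field U] [Algebra k U] (f : k[X]) (g : U[X]),
    g = f.map (algebraMap k U) → ∀ q t : Fin 4 → k,
    rr (emb U q) (emb U t) = algebraMap k U (rr q t) ∧
    ro (emb U q) (emb U t) = algebraMap k U (ro q t) ∧
    (∀ f4 : k, cmp (algebraMap k U f4) (emb U q) (emb U t) = emb U (cmp f4 q t)) ∧
    (On g (emb U t) ↔ On f t) ∧ (emb U q = emb U t → q = t) ∧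
    (ngv (emb U t) = emb U (ngv t)) ∧ (On f t → On f (ngv t))

/-- **Row SPO** (a specialisation of a point is a point). PROOF. The remainder of `B^2 - f` modulo
`A = X^2 - s X + p` is `ρ1 X + ρ0`, where `ρ0, ρ1` are polynomials in `s, p, b0, b1` with coefficients in
`k` (`X^n = α_n X + β_n` mod `A`, `α_(n+1) = s α_n + β_n`, `β_(n+1) = - p α_n`; `f` has degree 5:
`α, β` for `n = 2..5`, `B^2 = b1^2 X^2 + 2 b0 b1 X + b0^2`). `On g q` says `ρ0(q) = ρ1(q) = 0`; apply
`Spc`. -/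
def SpoStatement : Prop :=
  ∀ (k U : Type) [Field k] [Field U] [Algebra k U] (f : k[X]) (g : U[X]), f.natDegree = 5 →
    g = f.map (algebraMap k U) → ∀ (q : Fin 4 → U) (t : Fin 4 → k), Spc q t → On g q → On f t

/-- **Row TRS** (composition preserves specialisations; uses CPP, SUB). PROOF. Let `G(cmp q t) = 0`,
`n` = total degree of `G`; SUB for `Φ = G`, `m = 4` and `N, D` from CPP gives `G'` over `k` with
`G' = D^n G(N/D)` wherever `D <> 0`. `G'(q) = 0`, so `G'(t') = 0` (`Spc`), so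
`G(cmp t' t) = 0`, as `D(t') <> 0`. (CPP and SUB with `E = U` and with `E = k`, `emb k t = t`.) -/
def TrsStatement : Prop :=
  ∀ (k U : Type) [Field k] [Field U] [Algebra k U] (f4 : k) (q : Fin 4 → U) (t t' : Fin 4 → k),
    Spc q t' → rr q (emb U t) ≠ 0 → ro q (emb U t) ≠ 0 → rr t' t ≠ 0 → ro t' t ≠ 0 →
    Spc (cmp (algebraMap k U f4) q (emb U t)) (cmp f4 t' t)

/-- **Row LFF** (at most four points over a plane point). PROOF. Let `a, a'` be the roots of
`A = X^2 - s X + p` (closed field), `A = (X - a)(X - a')`. `On` gives `B(a)^2 = f(a)`, `B(a')^2 = f(a')`: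
at most two values each. If `a <> a'`, `B` (degree `<= 1`) is determined by `B(a), B(a')`. If `a = a'`:
`(X-a)^2` divides `B^2 - f`, so `2 B(a) B'(a) = f'(a)`; `B(a) <> 0` (otherwise `f(a) = f'(a) = 0`, `f` is
squarefree, char 0), so `B' = b1` is determined by `B(a)`. -/
def LffStatement : Prop :=
  ∀ (F : Type) [Field F] [IsAlgClosed F] [CharZero F] (f : F[X]), Squarefree f → ∀ s p : F,
    {q : Fin 4 → F | On f q ∧ q 0 = s ∧ q 1 = p}.Finite ∧
    {q : Fin 4 → F | On f q ∧ q 0 = s ∧ q 1 = p}.ncard ≤ 4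

/-- **Row RTL** (a point over a `k`-rational plane point is `k`-rational; uses EMB). PROOF. `k` is
algebraically closed: `A` has its roots `a, a'` in `k`. `B(a)^2 = f(a) ∈ k`, so `B(a) ∈ k`, the same for
`a'`. If `a <> a'`: `b1 = (B(a) - B(a'))/(a - a')`, `b0 = B(a) - b1 a` are in `k`. If `a = a'`:
`B(a) <> 0`, `b1 = f'(a)/(2 B(a))` (see LFF). -/
def RtlStatement : Prop :=
  ∀ (k U : Type) [Field k] [Field U] [Algebra k U] (f : k[X]) (g : U[X]), Env k U f g →
    ∀ q : Fin 4 → U, On g q → ¬ Gnr k q → ∃ t : Fin 4 → k, On f t ∧ q = emb U t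

/-- **Row GUP** (specialisations over the points of the plane curve; uses SPL, IRD, SPO). PROOF. `q` with
`q0^2 <> 4 q1`: roots `a1 <> a2 ∈ U` of `A_q`, `b_i = B_q(a_i)`, `b_i^2 = g(a_i)`; all integral over
`k[s, p]` (`a_i^2 - s a_i + p = 0`; `g` has coefficients in `k`). The hypothesis of SPL is IRD (1)
(`G(s,p) = 0` implies `Φ | G`, so `G(s0,p0) = 0`). SPL for `v = (a1, a2, b1, b2)`: `w = (α1, α2, γ1, γ2)`
with `α1 + α2 = s0`, `α1 α2 = p0`, `γ_i^2 = f(α_i)`; `α1 <> α2` because `s0^2 <> 4 p0`. (1) `t = (s0, p0,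
c0, c1)` with `c1 = (γ1 - γ2)/(α1 - α2)`, `c0 = (α1 γ2 - α2 γ1)/(α1 - α2)`. `Spc q t`: `G(q) = 0`,
`G` of degree `M`: `(a1 - a2)^M G(q)` is a polynomial over `k` in `(a, b)` (`q2, q3` are given by the same
formulas), it vanishes at `(a, b)`, so at `(α, γ)`; divide by `(α1 - α2)^M`. `On f t` by SPO. (2) Given
`t`: roots `α1, α2` of `A_t`, `γ_i = B_t(α_i)`. Choose roots `a1, a2` of `X^2 - s X + p` and `b_i` with
`b_i^2 = g(a_i)`, SPL: `(α1', α2', γ1', γ2')`, `{α1', α2'} = {α1, α2}`; exchange `(a1, b1)`, `(a2, b2)` if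
necessary; `γ_i'^2 = f(α_i) = γ_i^2`; replace `b_i` by `- b_i` if `γ_i' = - γ_i` (`G(a, ± b)` is again a
polynomial). Now define `q` by `(a, b)` as in (1): `On g q` (interpolation: `B(a_i)^2 = g(a_i)`,
`a1 <> a2`). -/
def GupStatement : Prop :=
  ∀ (k U : Type) [Field k] [Field U] [Algebra k U] (f : k[X]) (g : U[X]), Env k U f g →
    ∀ Φ : MvPolynomial (Fin 2) k, Irreducible Φ →
    (∀ q : Fin 4 → U, On g q → Gnr k q → q 0 ^ 2 ≠ 4 * q 1 → Zr Φ (q 0) (q 1) →
      ∀ s0 p0 : k, Zr Φ s0 p0 → s0 ^ 2 ≠ 4 * p0 →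
      ∃ t : Fin 4 → k, On f t ∧ t 0 = s0 ∧ t 1 = p0 ∧ Spc q t) ∧
    (∀ s p : U, Zr Φ s p → ¬ (s ∈ (algebraMap k U).range ∧ p ∈ (algebraMap k U).range) →
      s ^ 2 ≠ 4 * p → ∀ t : Fin 4 → k, On f t → Zr Φ (t 0) (t 1) → t 0 ^ 2 ≠ 4 * t 1 →
      ∃ q : Fin 4 → U, On g q ∧ q 0 = s ∧ q 1 = p ∧ Spc q t)

/-- **Row NRM** (norm to the `(s, p)` plane). PROOF. `R = F[X1, X2]`. With `β1 = (Y1 - Y2)/(X1 - X2)`,
`β0 = (X1 Y2 - X2 Y1)/(X1 - X2)`: `(X1 - X2)^M G(X1 + X2, X1 X2, β0, β1)` is a polynomial; replace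
`Y_i^2` by `f(X_i)`: `G# = g0 + g1 Y1 + g2 Y2 + g3 Y1 Y2`, `g_i ∈ R` of bounded degree. Put
`u = g0 + g2 Y2`, `v = g1 + g3 Y2`, `h = u^2 - f(X1) v^2 = h0 + h1 Y2` (with `Y2^2 = f(X2)`),
`n = h0^2 - f(X2) h1^2 ∈ R`. Let `q` be a point over `E`; over the algebraic closure `a1, a2` = roots of
`A_q`, `b_i = B_q(a_i)`, `b_i^2 = f(a_i)`; `G#(a, b) = (a1 - a2)^M G(q)` and `n(a) = G#(a, b) ·` (the
three conjugates), so `G(q) = 0` implies `n(a1, a2) = 0`. `n(X1, X2) n(X2, X1)` is symmetric, so it is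
`Θ0(X1 + X2, X1 X2)` with `Θ0` of bounded degree; `Θ = (S^2 - 4 P) Θ0` (not needed if `a1 <> a2`;
harmless). `n <> 0`: the given point `q` (`a1 <> a2`, `G(q) <> 0`) shows that not all `g_i` are 0, so
`u, v` are not both 0 in the domain `C2[X1]`, `C2 = F[X2, Y2]/(Y2^2 - f(X2)) = Q F f`
(`Fact (Odd f.natDegree)`); `h = u^2 - f(X1) v^2 <> 0` by the parity of the degree in `X1` (`f` is
monic of degree 5); `h <> 0` means `(h0, h1) <> 0`, and `n <> 0` by the parity of the degree in `X2`. All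
degrees are bounded by a function of `M` (the coefficients of `f` do not enter). -/
def NrmStatement : Prop :=
  ∀ M : ℕ, ∃ C0 : ℕ, ∀ (F : Type) [Field F] [CharZero F] (f : F[X]), f.Monic → f.natDegree = 5 →
    Squarefree f → ∀ G : MvPolynomial (Fin 4) F, G.totalDegree ≤ M →
    (∃ (E : Type) (_ : Field E) (φ : F →+* E) (q : Fin 4 → E), On (f.map φ) q ∧
      q 0 ^ 2 ≠ 4 * q 1 ∧ MvPolynomial.eval₂ φ q G ≠ 0) →
    ∃ Θ : MvPolynomial (Fin 2) F, Θ ≠ 0 ∧ Θ.totalDegree ≤ C0 ∧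
      ∀ (E : Type) [Field E] (φ : F →+* E) (q : Fin 4 → E), On (f.map φ) q →
        MvPolynomial.eval₂ φ q G = 0 → MvPolynomial.eval₂ φ ![q 0, q 1] Θ = 0

/-- **Row SDN** (a coset of a finite subgroup meets the theta divisor in few points). PROOF. Let `m` be the
number of `h ∈ H` such that `c + h = th z` for some `z`. For two of them, `h <> h'`:
`h - h' = th z - th z' = th z + th (z'.neg) <> 0`. By `th_pair` every nonzero element of `H` is
`th z + th (z'.neg)` for at most two ordered pairs `(z, z')`. So `m (m - 1) <= 2 (N - 1)`,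
`m <= sqrt(2N) + 1`. One more element: `c + h = 0`. -/
def SdnStatement : Prop :=
  ∀ (F : Type) [Field F] (f : F[X]) (J : Type) [AddCommGroup J] (th : Pt f → J)
    (cl : (Fin 4 → F) → J), JG f J th cl → ∀ H : AddSubgroup J, Finite H → ∀ c : J,
    {h : J | h ∈ H ∧ Tht th (c + h)}.ncard ≤ Nat.sqrt (2 * Nat.card H) + 3

/-- **Row TWO** (2-torsion, and the curve of the `2 th z`). PROOF. (i) `v + v = 0`: by `cover` `v = 0`; or
`v = th z`, `th z = - th z = th z.neg`, so `z.b = 0`, `f(z.a) = 0`: at most 5; or `v = cl q`,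
`cl q = - cl q = cl (ngv q)`, `q = ngv q`, `B_q = 0`, `A_q | f`: both roots of `A_q` are roots of `f`,
`(s, p)` is determined by them: at most 25. (ii) `m` = number of the `h`. For two of them,
`h - h' = 2 (th z - th z')`. For given `h - h' = δ <> 0` the element `v = th z - th z'` satisfies
`2 v = δ`: at most 31 values, all not 0, each of them for at most two ordered pairs `(z, z')` (as in
SDN). So `m (m - 1) <= 62 N`, `m <= sqrt(62 N) + 1 <= 8 (Nat.sqrt N + 1) + 1`. -/
def TwoStatement : Prop :=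
  ∀ (F : Type) [Field F] [IsAlgClosed F] [CharZero F] (f : F[X]) (J : Type) [AddCommGroup J]
    (th : Pt f → J) (cl : (Fin 4 → F) → J), f.natDegree = 5 → JG f J th cl →
    ({v : J | v + v = 0}.Finite ∧ {v : J | v + v = 0}.ncard ≤ 31) ∧
    ∀ H : AddSubgroup J, Finite H → ∀ c : J,
      {h : J | h ∈ H ∧ ∃ z, c + h = th z + th z}.ncard ≤ 8 * Nat.sqrt (Nat.card H) + 9

/-- **Row CNB** (most elements of a coset can be added to `t`; uses SDN, CMA (symmetry not needed)).
PROOF. Let `c + h` be not good. (1) `c + h` is 0 or `th z`. Otherwise `c + h = cl q` (`cover`). (2)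
`rr q t = 0`: `rr q t = A_q(α1) A_q(α2)` for the roots `α1, α2` of `A_t` (closed field), so `A_q` and `A_t`
have a common root `a`. `z = (a, B_q(a))`, and `w` = the point of `q` at the other root:
`cl q = th z + th w` (`split`). `B_q(a)^2 = f(a) = B_t(a)^2`, so `z` is `z_t` or `z_t.neg`, `z_t = (a,
B_t(a))` one of the two points of `t`. So `(c - th z) + h = th w` with one of 4 possible values of
`th z`. (3) `rr q t <> 0`, `ro q t = 0`: `exc`: `(c + cl t) + h` is 0 or `th z`. So 6 applications of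
SDN. -/
def CnbStatement : Prop :=
  ∀ (F : Type) [Field F] [IsAlgClosed F] (f : F[X]) (J : Type) [AddCommGroup J] (th : Pt f → J)
    (cl : (Fin 4 → F) → J), JG f J th cl → ∀ H : AddSubgroup J, Finite H → ∀ c : J,
    ∀ t : Fin 4 → F, On f t →
    {h : J | h ∈ H ∧ ¬ Good f cl (c + h) t}.ncard ≤ 6 * (Nat.sqrt (2 * Nat.card H) + 3)

/-- **Row AVO** (avoiding; uses TWO). PROOF. Look for `c = th z1 + th z2` with `z1, z2` points with
`z1.a <> z2.a`; then `c = cl q'` with `q' = (z1.a + z2.a, ..)` (interpolation, `split`; `On`). Put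
`x0 = c - cl t`. We want: (i) `Φ(q'0, q'1) <> 0`; (ii) `x0` is not 0, not `th z`; (iii) `x0` is not
`th w + th w`; (iv) for the two points `w1, w2` of `t` and `ε = 1, -1`: `c - cl t - ε th w_i` is not 0
and not `th z`. Then `x0 = cl x` (`cover`), `x0^2 <> 4 x1` (otherwise `A_x = (X - a)^2` and `split` gives
`th w + th w`), `rr x t <> 0` (otherwise common root, `x0 = ± th w_i + th z` as in CNB), `ro x t <> 0` (otherwise `exc`
contradicts `cl x + cl t = cl q'`), and `cmp x t = q'` (`comp`, `cl_inj`). Existence of `z1, z2`: `f` has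
points over every `a` (closed field), infinitely many. `Φ(X1 + X2, X1 X2)` is not the zero polynomial
(algebraic independence of `X1 + X2`, `X1 X2`), so for all but finitely many `z1.a` it is a nonzero
polynomial in `X2`, and (i) holds for all but finitely many `z2`. (ii): `th z1 + th z2 - cl t = th z3`
means `th z2 + th z3.neg = cl t - th z1 <> 0` (`cl_th`): at most 2 values of `z2` (`th_pair`); `= 0`: at
most one. (iv): the same with `cl t + ε th w_i - th z1`; it is 0 for at most 4 values of `z1`: exclude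
them. (iii): suppose there are `z1 <> z1'` (both outside the finite sets) such that (iii) fails for
cofinitely many `z2`: then for infinitely many `z2`: `th z1 + th z2 - cl t = 2 th w`,
`th z1' + th z2 - cl t = 2 th w'`, so `2 (th w - th w') = th z1 - th z1' =: δ <> 0`; different `z2` have
different `w`; `v = th w - th w'` is one of at most 31 solutions of `2 v = δ` (TWO (i)), so one `v` occurs
for infinitely many pairs `(w, w')`, but `v <> 0` occurs for at most 2: contradiction. So all but one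
`z1` (outside a finite set) have infinitely many good `z2`. -/
def AvoStatement : Prop :=
  ∀ (F : Type) [Field F] [IsAlgClosed F] [CharZero F] (f : F[X]) (J : Type) [AddCommGroup J]
    (th : Pt f → J) (cl : (Fin 4 → F) → J), f.Monic → f.natDegree = 5 → Squarefree f →
    JG f J th cl → ∀ Φ : MvPolynomial (Fin 2) F, Φ ≠ 0 → ∀ t : Fin 4 → F, On f t →
    ∃ x : Fin 4 → F, On f x ∧ x 0 ^ 2 ≠ 4 * x 1 ∧ rr x t ≠ 0 ∧ ro x t ≠ 0 ∧
      MvPolynomial.eval ![cmp (f.coeff 4) x t 0, cmp (f.coeff 4) x t 1] Φ ≠ 0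

end Pool.Agent.KDT.Z
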