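import Pool.Agent.KDT.DefsZ

set_option autoImplicit false

/-!
# KDT, block Z, part P: plane curves, fields, combinatorics. Complete proofs in the docstrings.

`Zr Φ s p` means `Φ(s, p) = 0` (`MvPolynomial.aeval ![s, p] Φ = 0`).
-/

namespace Pool.Agent.KDT.Z

open Polynomial

/-- **Row ELI** (elimination). PROOF (no resultants). Let `a = deg Φ`, `b = deg G` (total degrees, both
`<= n`), `V_m` = polynomials of total degree `<= m`, `dim V_m = (m+1)(m+2)/2`. For `m >= a + b` the
linear map `V_(m-a) × V_(m-b) -> V_m`, `(A, B) -> A Φ + B G` has kernel `{(-C G, C Φ) : C ∈ V_(m-a-b)}`: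
if `A Φ = - B G`, the prime `Φ` (irreducible in a UFD) does not divide `G`, so `B = C Φ`, `A = - C G`,
and total degrees of products of nonzero polynomials add (`MvPolynomial.totalDegree_mul_of_isDomain`).
So the image `W` has codimension `(m+1)(m+2)/2 - (m-a+1)(m-a+2)/2 - (m-b+1)(m-b+2)/2 +
(m-a-b+1)(m-a-b+2)/2 = a b <= n^2` in `V_m`. Take `m >= a + b`, `m >= n^2`: the `n^2 + 1` elements
`1, X_0, .., X_0^(n^2)` of `V_m` are dependent modulo `W`: some `R_0(X_0) <> 0` of degree `<= n^2` is
`A Φ + B G`; it vanishes at all common zeros (in every field). The same with `X_1`.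
(Alternative: resultants with Gauss' lemma give degree `<= 2 n^2`.) -/
def EliStatement : Prop :=
  ∀ (n : ℕ) (k : Type) [Field k] (Φ G : MvPolynomial (Fin 2) k), Φ.totalDegree ≤ n →
    G.totalDegree ≤ n → Irreducible Φ → ¬ Φ ∣ G →
    ∃ R0 R1 : k[X], R0 ≠ 0 ∧ R1 ≠ 0 ∧ R0.natDegree ≤ 2 * n ^ 2 ∧ R1.natDegree ≤ 2 * n ^ 2 ∧
      ∀ (U : Type) [Field U] [Algebra k U] (s p : U), Zr Φ s p → Zr G s p →
        aeval s R0 = 0 ∧ aeval p R1 = 0

/-- **Row BEZ** (weak Bezout; uses ELI). PROOF. `T` is contained in (roots of `R0`) × (roots of `R1`). -/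
def BezStatement : Prop :=
  ∀ (n : ℕ) (k : Type) [Field k] (Φ G : MvPolynomial (Fin 2) k), Φ.totalDegree ≤ n →
    G.totalDegree ≤ n → Irreducible Φ → ¬ Φ ∣ G → ∀ T : Finset (k × k),
    (∀ x ∈ T, Zr Φ x.1 x.2 ∧ Zr G x.1 x.2) → T.card ≤ 4 * n ^ 4

/-- **Row IRD** (relations of a generic point; uses ELI). PROOF. (1) If `Φ` does not divide `G`, then
(ELI) `R0(s) = 0`, `R1(p) = 0`, so `s` and `p` are algebraic over `k`, hence in `k`. (2) `Φ0` is a
product of irreducible factors, one of them vanishes at `(s, p)` (`Φ0 <> 0` is not a unit, because a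
nonzero constant does not vanish); degrees of factors of a nonzero polynomial are smaller. -/
def IrdStatement : Prop :=
  (∀ (k U : Type) [Field k] [Field U] [Algebra k U] [IsAlgClosed k] (s p : U)
    (Φ G : MvPolynomial (Fin 2) k), Irreducible Φ → Zr Φ s p →
    ¬ (s ∈ (algebraMap k U).range ∧ p ∈ (algebraMap k U).range) → Zr G s p → Φ ∣ G) ∧
  ∀ (k U : Type) [Field k] [Field U] [Algebra k U] (s p : U) (Φ0 : MvPolynomial (Fin 2) k),
    Φ0 ≠ 0 → Zr Φ0 s p → ∃ Φ : MvPolynomial (Fin 2) k, Irreducible Φ ∧ Φ ∣ Φ0 ∧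
      Φ.totalDegree ≤ Φ0.totalDegree ∧ Zr Φ s p

/-- **Row GNZ** (generic zeros exist). PROOF. Let `t ∈ U` not in `k` (`Env.ne`); `t` is transcendental
over the algebraically closed field `k`. If `X_1` occurs in `Φ`, write `Φ = sum_(j <= d) c_j(X_0) X_1^j`,
`d >= 1`, `c_d <> 0`; `c_d(t) <> 0`, so `Φ(t, X)` has a root `p ∈ U`; take `(t, p)`. If not, `Φ` is a
polynomial in `X_0` only, not constant, with a root `s ∈ k`; take `(s, t)`. -/
def GnzStatement : Prop :=
  ∀ (k U : Type) [Field k] [Field U] [Algebra k U] (f : k[X]) (g : U[X]), Env k U f g →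
    ∀ Φ : MvPolynomial (Fin 2) k, Irreducible Φ →
    ∃ s p : U, Zr Φ s p ∧ ¬ (s ∈ (algebraMap k U).range ∧ p ∈ (algebraMap k U).range)

/-- **Row INP** (a plane curve has infinitely many points; uses ELI). PROOF. As in GNZ: if `X_1` occurs
in `Φ`, then for every `s ∈ k` with `c_d(s) <> 0` (all but finitely many, `k` is infinite) there is a
`p` with `Φ(s, p) = 0`; if not, `Φ(s, ·) = 0` for a root `s`. So `Φ` has infinitely many zeros in
`k^2`; by ELI only finitely many of them are zeros of `G`. -/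
def InpStatement : Prop :=
  ∀ (k : Type) [Field k] [IsAlgClosed k] (Φ G : MvPolynomial (Fin 2) k), Irreducible Φ → ¬ Φ ∣ G →
    {x : k × k | Zr Φ x.1 x.2 ∧ ¬ Zr G x.1 x.2}.Infinite

/-- **Row EXT** (automorphisms; uses IRD). PROOF. By IRD (1) the kernels of `k[S,P] -> U` at `(s, p)` and
at `(s', p')` are both `(Φ)`, so there is a `k`-isomorphism `k[s, p] -> k[s', p']`, `s -> s'`,
`p -> p'`, which extends to the fraction fields `E = k(s, p)`, `E' = k(s', p')` (subfields of `U`:
`IntermediateField.adjoin k {s, p}`). `U` is algebraic over `E` and over `E'` (`Env.td`, one of `s, p` is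
not in `k`) and algebraically closed, so `U` is an algebraic closure of both, and the isomorphism
`E -> E'` extends to `U` (`IsAlgClosure.equivOfEquiv`, or `IsAlgClosed.lift` and surjectivity). -/
def ExtStatement : Prop :=
  ∀ (k U : Type) [Field k] [Field U] [Algebra k U] (f : k[X]) (g : U[X]), Env k U f g →
    ∀ (Φ : MvPolynomial (Fin 2) k) (s p s' p' : U), Irreducible Φ → Zr Φ s p → Zr Φ s' p' →
    ¬ (s ∈ (algebraMap k U).range ∧ p ∈ (algebraMap k U).range) →
    ¬ (s' ∈ (algebraMap k U).range ∧ p' ∈ (algebraMap k U).range) →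
    ∃ σ : U ≃ₐ[k] U, σ s = s' ∧ σ p = p'

/-- **Row TDO** (the field `U`). PROOF. `U` = algebraic closure of `L = RatFunc k` (or
`FractionRing k[X]`), `x ∈ L` the variable. Let `t ∈ U` not in `k`. `t` is algebraic over `L`; clearing
denominators there is a nonzero `F ∈ k[X, Y]` with `F(x, t) = 0`. `F(X, t) ∈ k[t][X]` is not the zero
polynomial (otherwise all the coefficients `c(Y) ∈ k[Y]` of `F` vanish at `t`, which is transcendental
over the algebraically closed field `k`), so `x` is algebraic over `k(t)`; hence `L = k(x)` is algebraic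
over `k(t)`, and `U` is algebraic over `k(t)` (transitivity). `x` is not in `k`. -/
def TdoStatement : Prop :=
  ∀ (k : Type) [Field k] [IsAlgClosed k],
    ∃ (U : Type) (_ : Field U) (_ : Algebra k U), IsAlgClosed U ∧
      (∀ t : U, t ∉ (algebraMap k U).range →
        Algebra.IsAlgebraic (IntermediateField.adjoin k {t}) U) ∧
      ∃ t : U, t ∉ (algebraMap k U).range

/-- **Row KBS** (descent of an equation). PROOF. Choose a coefficient `c <> 0` of `Θ` and a `k`-linear
map `ℓ : U -> k` with `ℓ(c) <> 0` (a nonzero vector has a functional). `R = ` the polynomial with the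
coefficients `ℓ(coeff Θ)`; `R <> 0`, its degree is at most that of `Θ`, and
`R(s, p) = ℓ(Θ(s, p))` for `s, p ∈ k`. -/
def KbsStatement : Prop :=
  ∀ (k U : Type) [Field k] [Field U] [Algebra k U] (Θ : MvPolynomial (Fin 2) U), Θ ≠ 0 →
    ∃ R : MvPolynomial (Fin 2) k, R ≠ 0 ∧ R.totalDegree ≤ Θ.totalDegree ∧
      ∀ s p : k, MvPolynomial.eval ![algebraMap k U s, algebraMap k U p] Θ = 0 →
        MvPolynomial.eval ![s, p] R = 0

/-- **Row PIG** (pigeonhole for curves; pure combinatorics). PROOF. Let `I ⊆ T` be a maximal subset of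
pairwise inequivalent elements. If `#I >= R`, choose `R` of them: the union of their `Z i` has at least
`R a - R^2 b > N` elements (inclusion-exclusion: add the sets one after the other, each new set meets
the earlier ones in at most `R b` elements), but it is contained in `P`. So `1 <= #I < R`; every
`j ∈ T` is equivalent to some `i ∈ I` (maximality), so one class has at least `#T/#I >= #T/R` elements. -/
def PigStatement : Prop :=
  ∀ (α ι : Type) [DecidableEq α] (T : Finset ι) (Z : ι → Finset α) (P : Finset α)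
    (r : ι → ι → Prop) [DecidableRel r] (R a b N : ℕ), Equivalence r → P.card ≤ N →
    (∀ i ∈ T, Z i ⊆ P ∧ a ≤ (Z i).card) →
    (∀ i ∈ T, ∀ j ∈ T, ¬ r i j → (Z i ∩ Z j).card ≤ b) → N + R ^ 2 * b < R * a → T.Nonempty →
    ∃ i ∈ T, T.card ≤ R * (T.filter (fun j => r i j)).card

/-- **Row SUB** (substitution of fractions with a common denominator). PROOF. For a monomial
`c prod X_i^(e_i)` of `Φ`, `e = sum e_i <= n`, take `c prod (N i)^(e_i) D^(n - e)`; sum. Total degree
`<= b n`. -/
def SubStatement : Prop :=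
  ∀ (m n b : ℕ) (F : Type) [Field F] (Φ : MvPolynomial (Fin m) F)
    (N : Fin m → MvPolynomial (Fin 4) F) (D : MvPolynomial (Fin 4) F), Φ.totalDegree ≤ n →
    (∀ i, (N i).totalDegree ≤ b) → D.totalDegree ≤ b →
    ∃ G : MvPolynomial (Fin 4) F, G.totalDegree ≤ b * n ∧
      ∀ (E : Type) [Field E] [Algebra F E] (q : Fin 4 → E), MvPolynomial.aeval q D ≠ 0 →
        MvPolynomial.aeval q G = (MvPolynomial.aeval q D) ^ n *
          MvPolynomial.aeval (fun i => MvPolynomial.aeval q (N i) / MvPolynomial.aeval q D) Φ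

/-- **Row SPL** (specialisations exist: lying over). PROOF. `B = k[s, p] ⊆ A = k[s, p, v_0, .., v_3]` in
`U`; `A` is integral over `B`. By the hypothesis there is a `k`-algebra map `χ : B -> k`, `s -> s0`,
`p -> p0` (`B` is the quotient of `k[S,P]` by the kernel of the evaluation). Its kernel `m0` is a
maximal ideal of `B`; lying over: a prime `Q` of `A` with `Q ∩ B = m0`
(`Ideal.exists_ideal_over_prime_of_isIntegral`). `A/Q` is a domain, integral over
`B/m0 = k`, so algebraic over the algebraically closed field `k`: `k -> A/Q` is bijective. So there is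
a `k`-algebra map `A -> k` extending `χ`; `w_i` = image of `v_i`. -/
def SplStatement : Prop :=
  ∀ (k U : Type) [Field k] [IsAlgClosed k] [Field U] [Algebra k U] (s p : U) (s0 p0 : k),
    (∀ G : MvPolynomial (Fin 2) k, Zr G s p → MvPolynomial.eval ![s0, p0] G = 0) →
    ∀ v : Fin 4 → U, (∀ i, IsIntegral (Algebra.adjoin k {s, p}) (v i)) →
    ∃ w : Fin 4 → k, ∀ G : MvPolynomial (Fin 6) k,
      MvPolynomial.aeval ![s, p, v 0, v 1, v 2, v 3] G = 0 →
      MvPolynomial.eval ![s0, p0, w 0, w 1, w 2, w 3] G = 0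

end Pool.Agent.KDT.Z
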