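import Pool.Agent.KDT.Defs
import Pool.Agent.SZT.StmtsB
import Pool.Agent.SZT.StmtsA
import Pool.Agent.MNT.StmtsA

set_option autoImplicit false

/-!
# KDT, blocks 1-5 (note 3687): Kummer coordinates, translations by 2-torsion points, local bounds,
the determinant of the monomials. Complete proofs in the docstrings.

DELIVER: `Pool/Agent/HelperNN_KDT/XXX.lean`, `import Pool.Agent.KDT.StmtsK`, namespace
`Pool.Agent.KDT.HNN`, theorem `xxx (hypotheses = the statements in the column uses, in this order) :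
XxxStatement`. The statements of SZT are all PROVED (table szt, column path): a row may import a proof
or take the statement as a hypothesis (named in uses). No straight double quotes, no `congr!`,
`convert`, `native_decide`, `notation`, `sorry`.
-/

namespace Pool.Agent.KDT

open Polynomial NumberField H58Q Pool.Agent.SZT
open Pool.Agent.MNT (QU vC)

/-! ## Block 1: algebra of the Kummer surface -/

/-- **Row KQU** (Kummer quartic). PROOF. `A = x² - s x + p` (monic of degree 2), `B = b₁ x + b₀`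
(`deg B < 2`), `f - B² = A C'` with `C' = x³ + c₂ x² + c₁ x + c₀` (monic of degree 3, because `f` is monic
of degree 5). Compare coefficients: `f₄ = c₂ - s`, `f₃ = c₁ - s c₂ + p`,
`f₂ = c₀ - s c₁ + p c₂ + b₁²`, `f₁ = - s c₀ + p c₁ + 2 b₁ b₀`, `f₀ = p c₀ + b₀²`. Substitute in `kum`:
`k₄ = - (c₀ + p c₂)`. Substitute in `quart`: a polynomial identity in `s, p, b₀, b₁, c₀, c₁, c₂`
(`ring`; checked by computer modulo a prime). Second part: `quart` and `kum` are defined with the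
coefficients of `f`, `A`, `B`, so they commute with ring homomorphisms. -/
def KquStatement : Prop :=
  (∀ (K : Type) [Field K] (f A B : K[X]), f.Monic → f.natDegree = 5 → Mum f A B →
    A.natDegree = 2 → quart f (kum f A B) = 0) ∧
  (∀ (K E : Type) [Field K] [Field E] (φ : K →+* E) (f A B : K[X]),
    (∀ i, φ (kum f A B i) = kum (f.map φ) (A.map φ) (B.map φ) i) ∧
    ∀ u : Fin 4 → K, φ (quart f u) = quart (f.map φ) (fun i => φ (u i)))

/-- **Row TRO** (the trope of two roots). PROOF. As in KQU: `f = B² + A C'`, and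
`A(u) C'(v) + A(v) C'(u) + 2 B(u) B(v) = F₀(u,v) - (u-v)² (k₄ - (u+v) p + u v s)`,
`f(u) + f(v) - F₀(u,v) = (u-v)² G(u,v)` (polynomial identities). For roots `a, b` of `f`:
`A(a) C'(b) + A(b) C'(a) + 2 B(a) B(b) = -(a-b)² tau`, and `A(a) C'(a) = - B(a)²`,
`A(b) C'(b) = - B(b)²`, so
`(A(a) B(b) - B(a) A(b))² = - A(a)² A(b) C'(b) - 2 A(a) A(b) B(a) B(b) - A(b)² A(a) C'(a)
 = - A(a) A(b) (A(a) C'(b) + A(b) C'(a) + 2 B(a) B(b))`. (Checked by computer.) -/
def TroStatement : Prop :=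
  ∀ (K : Type) [Field K] (f A B : K[X]) (a b : K), f.Monic → f.natDegree = 5 → Mum f A B →
    A.natDegree = 2 → f.IsRoot a → f.IsRoot b →
    (A.eval a * B.eval b - B.eval a * A.eval b) ^ 2 =
      A.eval a * A.eval b * (a - b) ^ 2 * tau f a b (kum f A B) ∧
    A.eval a = kum f A B 2 - a * kum f A B 1 + a ^ 2 * kum f A B 0

/-- `(A', B')` is the translate of `(A, B)` by the 2-torsion point of the root `a` of `f`. -/
structure Trl {K : Type} [Field K] (f A B : K[X]) (a : K) (A' B' V : K[X]) : Prop where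
  mum : Mum f A' B'
  two : A'.natDegree = 2
  degV : V.natDegree ≤ 2
  eq : f - V ^ 2 = (X - C a) * A * A'
  dvd : A ∣ V - B
  ev : V.eval a = 0
  dvd' : A' ∣ V + B'
  eva : A'.eval a * A.eval a = (derivative f).eval a
  evb : ∀ b, f.IsRoot b → b ≠ a → A.eval b ≠ 0 →
    A'.eval b * A.eval a = (a - b) * tau f a b (kum f A B)
  idl : MI f A B * MI f (X - C a) 0 * MI f A' (-B') = Ideal.span {(⟨-V, 1⟩ : Q K f)}

/-- **Row TRL** (uses TRO). PROOF. `V = B - C (B(a)/A(a)) * A`, `deg V ≤ 2`, `V(a) = 0`. `f - V²` is monic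
of degree 5, divisible by `A` (`V ≡ B`, `A ∣ B² - f`) and by `X - a` (`f(a) = V(a) = 0`), `A(a) ≠ 0`, so
`f - V² = (X - a) A A'`, `A'` monic of degree 2. `B' = (-V) %ₘ A'`. Derivative at `a`:
`f'(a) - 2 V(a) V'(a) = A(a) A'(a)`. At a root `b ≠ a` of `f`: `- V(b)² = (b - a) A(b) A'(b)` and
`V(b) A(a) = B(b) A(a) - B(a) A(b)`, so by TRO
`(b - a) A(b) A'(b) A(a)² = - A(a) A(b) (a-b)² tau`; divide by `A(a) A(b) (b - a)`. The ideals:
`(X - a, y) = (X - a, y - V)`, `(A, y - B) = (A, y - V)`, `(A', y + B') = (A', y - V)`. For `A₁ A₂`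
dividing `V² - f`: `(A₁, y - V)(A₂, y - V) = (A₁ A₂, y - V)`: `⊆` clear; `⊇`: the product contains
`A₁ A₂`, `A₁ (y - V)`, `A₂ (y - V)`, `(y - V)² = - 2 V (y - V) + (f - V²)`, so `2 V (y - V)`, and
`A₁, A₂, 2 V` generate 1 (a common prime `q` divides `V`, `q²` divides `A₁ A₂`, so `q² ∣ f`, against
squarefree). Twice: the product of the three ideals is `(f - V², y - V) = (y - V)`. -/
def TrlStatement : Prop :=
  ∀ (K : Type) [Field K] (f A B : K[X]) (a : K), (2 : K) ≠ 0 → f.Monic → f.natDegree = 5 →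
    Squarefree f → Mum f A B → A.natDegree = 2 → f.IsRoot a → A.eval a ≠ 0 →
    ∃ A' B' V : K[X], Trl f A B a A' B' V

/-- **Row GDD** (double translation; uses TRL, UNQ, MII, BDK). PROOF. TRL for `(A, B), a`. `A'` is coprime
to `f` because `f` splits and `A'` does not vanish at its roots: `A'(a) A(a) = f'(a) ≠ 0`,
`A'(b) A(a) = (a - b) tau ≠ 0`. TRL for `(A', B'), b`. `A''` at the roots: `A''(b) ≠ 0` as before. Suppose
`A''(c) = 0` for a root `c ≠ b` of `f`. BDK (`(A'', B'')` is not good; `deg A'' = 2`): either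
`A'' ∣ f`, `B'' = 0`, or `MI f A'' B'' = I_t P`, `I_t = MI f (X - t) 0`, `P = MI f (X - C x) (C y)`;
in the first case the same holds with `P = I_x` (`A'' = (X - t)(X - x)`, two roots of `f`). Classes
(write `~` for `SameCl`; all ideals are nonzero; `I_x² = (X - x)` for a root `x` by MII;
`I_a I_b I_c I_d I_e = (y)` for the five roots: norm argument, or repeated use of
`(A₁, y)(A₂, y) = (A₁ A₂, y)` for coprime `A₁ A₂ ∣ f`, as in TRL with `V = 0`):
`MI A'' B'' ~ MI A' B' * I_b ~ MI A B * I_a * I_b` (by `idl`, MII). CASE `t = a`: then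
`MI A B * I_a I_b ~ I_a P`, so `MI A B ~ P I_b`, which would be a reduced ideal of degree `≤ 2` equal to
`MI f A B` with a root `b` of `f` (UNQ with PRO) or of degree `≤ 1`: contradiction to `Good f A B`;
simpler: `MI A B * I_b ~ P` has the reduced representative of TRL for `(A, B), b`, of degree 2, and `P`
has degree `≤ 1`: contradiction to UNQ. CASE `t = b`: `MI A B * I_a ~ P` (cancel `I_b`, `I_b² ~ 1`):
`MI A' B'` has degree 2, `P` degree `≤ 1`: contradiction to UNQ. CASE `t = c ≠ a, b`, other two roots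
`d, e`: `MI A B * I_a I_b ~ I_c P`; multiply by `I_a I_b I_c I_d I_e ~ 1`:
`MI A B * I_d I_e ~ P` (`I_a², I_b², I_c² ~ 1`). But TRL for `(A, B), d` gives `(A₁, B₁)` with
`A₁(e) A(d) = (d - e) tau_{de} ≠ 0`, TRL for `(A₁, B₁), e` gives `(A₂, B₂)` of degree 2 in the class
`MI A B * I_d I_e`: contradiction to UNQ. -/
def GddStatement : Prop :=
  ∀ (K : Type) [Field K] (f A B : K[X]) (a b : K), (2 : K) ≠ 0 → f.Monic → f.natDegree = 5 →
    Squarefree f → f.Splits → Good f A B → f.IsRoot a → f.IsRoot b → a ≠ b →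
    (∀ c d, f.IsRoot c → f.IsRoot d → c ≠ d → tau f c d (kum f A B) ≠ 0) →
    ∃ A' B' V A'' B'' V' : K[X], Trl f A B a A' B' V ∧ Good f A' B' ∧
      Trl f A' B' b A'' B'' V' ∧ Good f A'' B''

/-- **Row LVA** (generators; uses MII, and the last part of the proof of PEL for `cop`). PROOF. Apply
the conjugation (`star`) to `idl`: `MI f A (-B) * I_a * MI f A' B' = (⟨V, 1⟩)`, `I_a = MI f (X - C a) 0`,
and to `Gen.gen`: `MI f A (-B) ^ M = (⟨U, -W⟩)`. `I_a² = (X - a)` (MII). So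
`(⟨V, 1⟩)^M = (⟨U, -W⟩) ((X - a)^(M/2)) MI(A',B')^M`, hence `⟨V, 1⟩^M = ⟨U, -W⟩ ⟨(X - a)^(M/2), 0⟩ ⟨U', W'⟩`
with `(⟨U', W'⟩) = MI(A',B')^M` (cancel a nonzero element of a domain). Norms:
`(U'² - f W'²) A^M (X - a)^M = (V² - f)^M = ((X - a) A A')^M` (`M` even), so `U'² - f W'² = A'^M`.
`IsCoprime A' U'` as in PEL (`Good f A' B'`). -/
def LvaStatement : Prop :=
  ∀ (K : Type) [Field K] (f A B A' B' V U W : K[X]) (a : K) (M : ℕ), (2 : K) ≠ 0 → f.Monic →
    f.natDegree = 5 → Squarefree f → f.IsRoot a → Good f A B → Good f A' B' →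
    Trl f A B a A' B' V → Gen f A B U W M →
    ∃ U' W' : K[X], Gen f A' B' U' W' M ∧
      (⟨U', W'⟩ : Q K f) * ⟨U, -W⟩ * ⟨(X - C a) ^ (M / 2), 0⟩ = ⟨V, 1⟩ ^ M

/-- **Row LVB** (STRONG; the value formula). `Res` = `resultant`, all up to sign (`v` does not see it).
For monic `P`: `Res(P, h)` depends only on `h mod P`, `Res(P, h h') = Res(P, h) Res(P, h')`,
`Res(P P', h) = Res(P, h) Res(P', h)`, `Res(X - a, h) = h(a)`, `Res(P, X - a) = ± P(a)`. You may also work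
with products over the roots in an algebraic closure. `g = U - V W`.
(a) `f ≡ B²` mod `A`: `Res(A, 4f) = Res(A, 2B)²`; `f ≡ V²` mod `A'`: `Res(A', 4f) = Res(A', 2V)²`.
(b) The relation, `y ↦ V` modulo `A'` (`A' ∣ f - V²`): `(U' + V W') g (X - a)^(M/2) ≡ (2V)^M` mod `A'`.
`⟨U', W'⟩ ∈ MI(A', B')` gives `A' ∣ U' + B' W'` (MIK), `V ≡ -B'`, so `U' + V W' ≡ 2 U'`. Hence
`Res(A', 2U') Res(A', g) A'(a)^(M/2) = ± Res(A', 2V)^M` (all factors nonzero: `f(a') ≠ 0`).
(c) `f - V² = (X - a) A A'`: `Res(f - V², g) = g(a) Res(A, g) Res(A', g)`; `g ≡ U - B W ≡ 2 U` mod `A`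
(`A ∣ U + B W`, MIK); `g(a) = U(a)`, `U(a)² = A(a)^M`.
(d) `Res(f - V², g) = ± Res(A, 2B)^M`. `deg U = M`, leading coefficient `±1` (from the Pell equation:
`deg A^M = 2M` even, `deg f W²` odd), `deg (V W) ≤ 2 + (2M - 6)/2 = M - 1` (`W ≠ 0` because
`U + B W ≡ 0`, `U` prime to `A`), so `g` has degree `M` and leading coefficient `±1`. For `h` put
`P(h) = ∏ h(γ)` over the `M` roots `γ` of `g`. `A^M = U² - f W² ≡ - (f - V²) W²` mod `g`:
`P(A)^M = ± P(f - V²) P(W)²`. `P(A) = ± Res(A, g) = ± Res(A, 2U)`, `P(f - V²) = ± Res(f - V², g)`.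
`P(W) = ± lc(W)^M ∏_{W(ω)=0} g(ω) = ± lc(W)^M ∏ U(ω)`, so
`P(W)² = lc(W)^(2M) ∏ A(ω)^M = (± Res(A, W))^M` (`deg A = 2`). And `2U ≡ - 2 B W` mod `A`:
`Res(A, 2U) = ± Res(A, 2B) Res(A, W)`. Cancel `Res(A, W)^M ≠ 0`.
CONCLUSION, `L = Lv(A, U)`, `L' = Lv(A', U')`: (a): `L = log v Res(A, 2B) - (1/M) log v Res(A, 2U)`,
`L' = log v Res(A', 2V) - (1/M) log v Res(A', 2U')`; (c), (d):
`(1/M) log v Res(A', g) = L - (1/2) log v A(a)`; (b): `L' = (1/M) log v Res(A', g) + (1/2) log v A'(a)`;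
and `A'(a) A(a) = f'(a)`. -/
def LvbStatement : Prop :=
  ∀ (K : Type) [Field K] (f A B A' B' V U W U' W' : K[X]) (a : K) (M : ℕ), (2 : K) ≠ 0 →
    f.Monic → f.natDegree = 5 → Squarefree f → f.IsRoot a → Good f A B → Good f A' B' →
    Trl f A B a A' B' V → Gen f A B U W M → Gen f A' B' U' W' M →
    (⟨U', W'⟩ : Q K f) * ⟨U, -W⟩ * ⟨(X - C a) ^ (M / 2), 0⟩ = ⟨V, 1⟩ ^ M →
    ∀ v : AbsoluteValue K ℝ, Lv v f A' U' M = Lv v f A U M - Real.log (v (A.eval a)) +
      (1 / 2) * Real.log (v ((derivative f).eval a))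

/-- **Row LVD** (values of the two translates; uses GDD, LVA, LVB). PROOF. GDD, LVA and LVB twice.
`A'(b) A(a) = (a - b) tau_{ab}` (`A(b) ≠ 0` as `(A, B)` is good). -/
def LvdStatement : Prop :=
  ∀ (K : Type) [Field K] (f A B U W : K[X]) (a b : K) (M : ℕ), (2 : K) ≠ 0 → f.Monic →
    f.natDegree = 5 → Squarefree f → f.Splits → Good f A B → f.IsRoot a → f.IsRoot b → a ≠ b →
    (∀ c d, f.IsRoot c → f.IsRoot d → c ≠ d → tau f c d (kum f A B) ≠ 0) →
    Gen f A B U W M →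
    ∃ A' B' V U' W' A'' B'' V' U'' W'' : K[X],
      (Trl f A B a A' B' V ∧ Good f A' B' ∧ Gen f A' B' U' W' M ∧
        ∀ v : AbsoluteValue K ℝ, Lv v f A' U' M = Lv v f A U M - Real.log (v (A.eval a)) +
          (1 / 2) * Real.log (v ((derivative f).eval a))) ∧
      Trl f A' B' b A'' B'' V' ∧ Good f A'' B'' ∧ Gen f A'' B'' U'' W'' M ∧
        ∀ v : AbsoluteValue K ℝ, Lv v f A'' U'' M = Lv v f A U M - Real.log (v (a - b)) -
          Real.log (v (tau f a b (kum f A B))) +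
          (1 / 2) * Real.log (v ((derivative f).eval a)) +
          (1 / 2) * Real.log (v ((derivative f).eval b))

/-- **Row GMP** (base change of `Mum`, `Good`, `Gen`, `VG`, `Lv`; uses KQU). PROOF. All polynomial
identities and divisibilities are preserved by `map`; degrees of monic polynomials too; coprimality:
`IsCoprime.map`. The ideal: `Q.map φ f` maps the generators of `MI f A B` to those of
`MI (f.map φ) (A.map φ) (B.map φ)`, `Ideal.map_span`, `Ideal.map_pow`, `Ideal.map_mul`. `Lv`: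
`resultant_map_map` (see `res_map` in `Helper95_SZT/LIF.lean`). Last part: `VG` over `K` gives the
nonvanishing of all tropes over `E` (definition of `VG` and KQU, second part). -/
def GmpStatement : Prop :=
  ∀ (K E : Type) [Field K] [Field E] (φ : K →+* E) (f A B U W : K[X]) (M : ℕ), f.Monic →
    (Mum f A B → Mum (f.map φ) (A.map φ) (B.map φ)) ∧
    (Good f A B → Good (f.map φ) (A.map φ) (B.map φ)) ∧
    (Gen f A B U W M → Gen (f.map φ) (A.map φ) (B.map φ) (U.map φ) (W.map φ) M) ∧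
    (∀ (v : AbsoluteValue K ℝ) (w : AbsoluteValue E ℝ), (∀ x, w (φ x) = v x) →
      Lv w (f.map φ) (A.map φ) (U.map φ) M = Lv v f A U M) ∧
    (VG f A B → ∀ c d, (f.map φ).IsRoot c → (f.map φ).IsRoot d → c ≠ d →
      tau (f.map φ) c d (kum (f.map φ) (A.map φ) (B.map φ)) ≠ 0)

/-! ## Block 2: local bounds for the adapted coordinates -/

/-- **Row LFA** (general place; uses LVD, TRO). `D₀` = a lower bound for all `Lv`. PROOF. `ρ > 0`.
`u = uni (adc f a b) (kum f A B)`, `a = θ i`, `b = θ j`, `L = Lv (A, U)`; `u 0 = 1`,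
`u 1 = s - (a + b)`, `u 2 = A(a)`, `u 3 = tau_{ab}` (TRO, second part, and the definitions).
LVD: `v (A(a)) = exp(L - L') v(f'(a))^(1/2)`, `L' ≥ D₀`, `f'(a) = ∏_{k ≠ i} (θ i - θ k)` so
`v (f'(a)) ≤ ρ⁴`: `v (u 2) ≤ exp(L - D₀) ρ²`. The same for `A(b)` (exchange `a` and `b`).
`A(a) - A(b) = (a - b)(a + b - s)`, `v (a - b) = ρ`: `v (u 1) ≤ exp c₀ exp(L - D₀) ρ`. LVD:
`v (tau) = exp(L - L'') v(f'(a) f'(b))^(1/2) / v (a - b) ≤ exp(L - D₀) ρ³`. `u 0`: `0 ≤ L - D₀`.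
Monomials: multiply (`∑ e i = κ`, `wt e = e 1 + 2 e 2 + 3 e 3`; `1 ≤ exp c₀`). -/
def LfaStatement : Prop :=
  ∀ (E : Type) [Field E] [IsAlgClosed E] (v : AbsoluteValue E ℝ) (c₀ D₀ ρ : ℝ) (θ : Fin 5 → E)
    (i j : Fin 5), QU v c₀ → (2 : E) ≠ 0 → Function.Injective θ → i ≠ j →
    (∀ k l, v (θ k - θ l) ≤ ρ) → v (θ i - θ j) = ρ →
    (∀ (A B U W : E[X]) (M : ℕ), Good (∏ i, (X - C (θ i))) A B →
      Gen (∏ i, (X - C (θ i))) A B U W M → D₀ ≤ Lv v (∏ i, (X - C (θ i))) A U M) →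
    ∀ (A B U W : E[X]) (M : ℕ), Good (∏ i, (X - C (θ i))) A B →
    (∀ k l, k ≠ l → tau (∏ i, (X - C (θ i))) (θ k) (θ l) (kum (∏ i, (X - C (θ i))) A B) ≠ 0) →
    Gen (∏ i, (X - C (θ i))) A B U W M →
    ∀ (κ : ℕ) (e : Fin 4 → ℕ), e ∈ Ex κ →
      v (mon e (uni (adc (∏ i, (X - C (θ i))) (θ i) (θ j)) (kum (∏ i, (X - C (θ i))) A B))) ≤
        Real.exp (κ * c₀) * Real.exp (κ * (Lv v (∏ i, (X - C (θ i))) A U M - D₀)) * ρ ^ wt e

/-- **Row PLF** (finite places; uses LFA, GMP, AOUT, DSR, CPL). PROOF. CPL for `v` (nonarchimedean, not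
trivial): `Ω` algebraically closed, `i : K → Ω`, `w x = ‖j x‖`, an absolute value, nonarchimedean
(`QU w 0`). `f.map i = ∏ (X - C (θ k))`, `θ` injective (`f` squarefree, characteristic 0). `ρ = rho w θ`,
attained by a pair `k, l` (finite maximum), `ρ > 0`, so `k ≠ l`; `ρ ≤ 1` (roots of a monic integral
polynomial). First part of AOUT: `D₀ = (1/2) log w(dsc θ) - 7 log ρ + c2 log w(2)` is a lower bound for
all `Lv` (over the algebraically closed `Ω` everything splits). `c = adc (f.map i) (θ k) (θ l)`. LFA with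
GMP (`c₀ = 0`); `w (dsc θ) = v (discr f)` (DSR), `ρ ^ (7 κ + wt e) ≤ 1`. -/
def PlfStatement : Prop :=
  ∃ c2 : ℝ, 0 ≤ c2 ∧ ∀ (K : Type) [Field K] [NumberField K] (v : FinitePlace K) (f : K[X]),
    f.Monic → f.natDegree = 5 → Squarefree f → (∀ n, v (f.coeff n) ≤ 1) →
    ∃ (Ω : Type) (_ : Field Ω) (w : AbsoluteValue Ω ℝ) (i : K →+* Ω) (c : Fin 6 → Ω),
      (∀ x, w (i x) = v x) ∧ IsNonarchimedean w ∧
      ∀ (A B U W : K[X]) (M : ℕ), VG f A B → Gen f A B U W M → ∀ (κ : ℕ) (e : Fin 4 → ℕ),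
        e ∈ Ex κ → w (mon e (uni c (fun l => i (kum f A B l)))) ≤
          Real.exp (κ * (Lv v f A U M - (1 / 2) * Real.log (v (discr f)) -
            c2 * Real.log (v 2)))

/-- **Row PLI** (infinite places; uses LFA, GMP, AOUT, DSR). PROOF. `ι = v.embedding`, as in LIF
(`Helper95_SZT/LIF.lean`): `f.map ι = ∏ (X - C (θ k))`, `rho = spr (f.map ι) = ρ` attained by a pair;
second part of AOUT: `D₀ = (1/2) log ‖dsc θ‖ - 7 log ρ - ci₀`; `QU vC (log 2)`; LFA and GMP;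
`ci = ci₀ + log 2`, `ρ ^ wt e = exp (wt e * log ρ)`. -/
def PliStatement : Prop :=
  ∃ ci : ℝ, 0 ≤ ci ∧ ∀ (K : Type) [Field K] [NumberField K] (v : InfinitePlace K) (f : K[X]),
    f.Monic → f.natDegree = 5 → Squarefree f →
    ∃ c : Fin 6 → ℂ, ∀ (A B U W : K[X]) (M : ℕ), VG f A B → Gen f A B U W M →
      ∀ (κ : ℕ) (e : Fin 4 → ℕ), e ∈ Ex κ →
        ‖mon e (uni c (fun l => v.embedding (kum f A B l)))‖ ≤
          Real.exp (κ * (Lv v f A U M - (1 / 2) * Real.log (v (discr f)) + ci) +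
            (7 * κ + wt e) * Real.log (spr (f.map v.embedding)))

/-- `F(x) = {x} (1 - {x})`. -/
noncomputable def FF (x : ℝ) : ℝ := Int.fract x * (1 - Int.fract x)

/-- **Row EOM** (the lower bound at a node over an algebraically closed `Ω ⊆ L`; uses EIN, RVL, MIK).
PROOF. EIN for the images in `L`: for a root `a` of `A.map j` (it is `j` of a root of `A`; `Ω`
algebraically closed): `B(a)² = f(a)` (`Mum`), `U(a) + W(a) B(a) = 0` (`⟨U, W⟩ ∈ (MI f A B)^M ⊆ MI f A B`,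
MIK), `U(a) ≠ 0` (`IsCoprime A U`). RVL (`v` = the absolute value `w`) for `g = 4 f` and `g = 2 U`, and
the logarithm of a product of nonzero factors, identify the right side of EIN with `Lv w f A U M`. -/
def EomStatement : Prop :=
  ∀ (Ω L : Type) [Field Ω] [IsAlgClosed Ω] [NormedField L] [IsUltrametricDist L]
    [CompleteSpace L] (j : Ω →+* L) (w : AbsoluteValue Ω ℝ) (f : Polynomial Ω) (θ : Fin 5 → Ω)
    (s : ℕ → L), (∀ x, w x = ‖j x‖) → SZT.B.Node (f.map j) (fun k => j (θ k)) →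
    SZT.B.Sq (SZT.B.hh (fun k => j (θ k))) s → f.Monic → f.natDegree = 5 →
    ∀ (A B U W : Polynomial Ω) (M : ℕ), Good f A B → Gen f A B U W M →
      Real.log ‖SZT.B.eta (fun k => j (θ k))‖ *
        FF (SZT.B.ss (fun k => j (θ k)) s (A.map j) (B.map j)) ≤ Lv w f A U M

/-- **Row SHF** (positions of the translates; uses ADD, NRM, CHT, NOD). PROOF. `f = ∏ (X - θ k)`,
squarefree. `(A₁, B₁) = (A, B)`, `(X - C (θ k), 0)`, `(A', -B')` are Mumford pairs, their product is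
principal (`Trl.idl`), NRM gives `κ`, ADD (with `K = Ω`, `φ = j`):
`ss (A, B) + ss (X - θ k, 0) + ss (A', -B') ∈ ℤ`. `ss (A', -B') = card (nz (A', B')) - ss (A', B')` (CHT,
as in KAP; see `Helper32_SZT/KAP.lean`). `ss (X - θ k, 0)`: the root is `j (θ k)`; for `k = 0, 1`,
`crd = (j(θ 0) - j(θ 1))/2` up to sign, its square is `eta`, so `pos = 1/2`; for `k ≥ 2` the root is not
in the disc, so `ss = 0`. -/
def ShfStatement : Prop :=
  ∀ (Ω L : Type) [Field Ω] [IsAlgClosed Ω] [NormedField L] [IsUltrametricDist L]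
    [CompleteSpace L] (j : Ω →+* L) (f : Polynomial Ω) (θ : Fin 5 → Ω) (s : ℕ → L),
    (2 : Ω) ≠ 0 → f.Monic → f.natDegree = 5 → Squarefree f →
    SZT.B.Node (f.map j) (fun k => j (θ k)) → SZT.B.Sq (SZT.B.hh (fun k => j (θ k))) s →
    ∀ (A B A' B' V : Polynomial Ω) (k : Fin 5), Mum f A B → Trl f A B (θ k) A' B' V →
      ∃ m : ℤ, SZT.B.ss (fun k => j (θ k)) s (A'.map j) (B'.map j) =
        SZT.B.ss (fun k => j (θ k)) s (A.map j) (B.map j) + (if k ≤ 1 then 1 / 2 else 0) + m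

/-- **Row LFB** (adapted coordinates at a node; uses LVD, EOM, SHF, NOD, TRO). `a = θ 0` (a root in the
node), `b = θ 2`; `q = log ‖η‖ < 0`, `S = ss (A, B)`, `L = Lv w f A U M`. PROOF. `f = ∏ (X - C (θ k))` (from
`Node.fac` and injectivity of `j`), `θ` injective. EOM for `(A, B)`: `q F(S) ≤ L`. LVD for the pair
`(θ 0, θ 2)`: `w (A(θ 0)) = exp(L - L') w(f'(θ 0))^(1/2)`, `w (f'(θ 0)) = ‖θ 0 - θ 1‖ = ‖η‖^(1/2)`
(`f'(θ 0) = ∏_{k ≠ 0} (θ 0 - θ k)`, `Node.far`, `‖2‖ = 1`), `L' ≥ q F(S + 1/2)` (EOM, SHF; `FF` has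
period 1): `w (u 2) ≤ exp(L + q (1/4 - F(S + 1/2)))`. LVD for `(θ 2, θ 0)`: `w (A(θ 2)) = exp(L - L₂)`,
`w (f'(θ 2)) = 1`, `L₂ ≥ q F(S)`: `≤ exp(L - q F(S))`.
`u 1 = s - (θ 0 + θ 2) = -(A(θ 0) - A(θ 2))/(θ 0 - θ 2)`, `‖θ 0 - θ 2‖ = 1`:
`w (u 1) ≤ max ≤ exp(L - q F(S))` (`1/4 - F ≥ 0`, `F ≥ 0`, `q < 0`). `u 0 = 1 ≤ exp(L - q F(S))`.
`w (u 3) = w (tau) = exp(L - L'') (w f'(θ 0) w f'(θ 2))^(1/2) / 1`, `L'' ≥ q F(S + 1/2)` (SHF twice):
`≤ exp(L + q (1/4 - F(S + 1/2)))`. -/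
def LfbStatement : Prop :=
  ∀ (Ω L : Type) [Field Ω] [IsAlgClosed Ω] [NormedField L] [IsUltrametricDist L]
    [CompleteSpace L] (j : Ω →+* L) (w : AbsoluteValue Ω ℝ) (f : Polynomial Ω) (θ : Fin 5 → Ω)
    (s : ℕ → L), (∀ x, w x = ‖j x‖) → SZT.B.Node (f.map j) (fun k => j (θ k)) →
    SZT.B.Sq (SZT.B.hh (fun k => j (θ k))) s → (2 : Ω) ≠ 0 → f.Monic → f.natDegree = 5 → Squarefree f →
    ∀ (A B U W : Polynomial Ω) (M : ℕ), Good f A B →
      (∀ c d, f.IsRoot c → f.IsRoot d → c ≠ d → tau f c d (kum f A B) ≠ 0) →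
      Gen f A B U W M → ∀ l : Fin 4,
      w (uni (adc f (θ 0) (θ 2)) (kum f A B) l) ≤ Real.exp (Lv w f A U M +
        Real.log ‖SZT.B.eta (fun k => j (θ k))‖ *
          (if l ≤ 1 then - FF (SZT.B.ss (fun k => j (θ k)) s (A.map j) (B.map j))
            else 1 / 4 - FF (SZT.B.ss (fun k => j (θ k)) s (A.map j) (B.map j) + 1 / 2)))

/-- **Row MBN** (real numbers). PROOF. Let `σ` = distance of `S` to the nearest integer, `0 ≤ σ ≤ 1/2`:
`F(S) = σ (1 - σ)`, `1/4 - F(S + 1/2) = σ²` (two cases `fract S ≤ 1/2`, `> 1/2`;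
`fract (S + 1/2) = fract S ± 1/2`). `∏ r l ^ e l ≤ exp(κ L + q ((κ - J) σ² - J σ (1 - σ)))`,
`J = jj e = e 0 + e 1`, and the bracket is `κ σ² - J σ = κ (σ - J/(2κ))² - J²/(4κ) ≥ - J²/(4κ)`; `q < 0`.
If `S` is an integer: `σ = 0`, the bracket is 0. -/
def MbnStatement : Prop :=
  ∀ (q L S : ℝ) (r : Fin 4 → ℝ) (κ : ℕ) (e : Fin 4 → ℕ), q < 0 → 0 < κ → e ∈ Ex κ →
    (∀ l, 0 ≤ r l ∧ r l ≤ Real.exp (L + q * (if l ≤ 1 then - FF S else 1 / 4 - FF (S + 1 / 2)))) →
    ∏ l, r l ^ e l ≤ Real.exp (κ * L - q * ((jj e : ℝ) ^ 2 / (4 * κ))) ∧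
    ((∃ m : ℤ, S = m) → ∏ l, r l ^ e l ≤ Real.exp (κ * L))

/-- **Row PLN** (nodes of a number field; uses LFB, MBN, GMP, NOD, CPL, ROO, SQR, KAP, RAT, NSZ).
PROOF. Copy of the proof of BOU (`Helper39_SZT/BOU.lean`): CPL gives `Ω, L, i, j`; ROO the roots
`θ : Fin 5 → Ω` and `e₀`; SQR gives `s`; NOD (f) and `resultant_deriv`: `‖eta‖ = v (discr f)`; KAP gives
`s₁` and `ss (A, B) = k s₁ + integer` for `(A, B)` in the class of `I^k`; RAT and NSZ for the pair
`(A₁, B₁)` of KAP: `n s₁ ∈ ℤ`. (`c` = the value of a uniformizer, `v (discr f) = c^n`, as in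
`Helper82_SZT/BOT.lean`.) `w x = ‖j x‖`, `c = adc (f.map i) (θ 0) (θ 2)`. LFB for the images in `Ω`
(GMP), then MBN with `q = log v (discr f)`, `S = ss` (`FF` has period 1, so `FF` of `ss` and of
`k s₁` agree; use MBN with `S = k s₁`). -/
def PlnStatement : Prop :=
  ∀ (K : Type) [Field K] [NumberField K] (v : FinitePlace K) (f : K[X]) (n : ℕ),
    f.Monic → f.natDegree = 5 → Squarefree f → NodeShape v.val f → 0 < n →
    v (discr f) * (Ideal.absNorm v.maximalIdeal.asIdeal : ℝ) ^ n = 1 →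
    ∀ I : Ideal (Q K f), I ≠ ⊥ →
    ∃ (s₁ : ℝ) (Ω : Type) (_ : Field Ω) (w : AbsoluteValue Ω ℝ) (i : K →+* Ω) (c : Fin 6 → Ω),
      (∃ m : ℤ, (n : ℝ) * s₁ = m) ∧ (∀ x, w (i x) = v x) ∧ IsNonarchimedean w ∧
      ∀ (k : ℕ) (A B U W : K[X]) (M : ℕ), VG f A B → SameCl (MI f A B) (I ^ k) →
        Gen f A B U W M → ∀ (κ : ℕ) (e : Fin 4 → ℕ), 0 < κ → e ∈ Ex κ →
        w (mon e (uni c (fun l => i (kum f A B l)))) ≤
          Real.exp (κ * Lv v f A U M - Real.log (v (discr f)) * ((jj e : ℝ) ^ 2 / (4 * κ))) ∧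
        ((∃ m : ℤ, (k : ℝ) * s₁ = m) →
          w (mon e (uni c (fun l => i (kum f A B l)))) ≤ Real.exp (κ * Lv v f A U M))

/-! ## Block 3: determinants -/

/-- **Row UNV** (STRONG; the determinant of the monomials is invariant under unipotent changes).
PROOF. Order the exponents by `ω(e) = (wt e, e 1)` lexicographically. Let `X` be the set of all
`u : Fin 4 → E` with `quart g u = 0`, and let all functions be restricted to `X`. (1) If
`e 1 ≥ 2` and `e 3 ≥ 2` (total degree `κ`), then `mon e` is a linear combination of `mon e'` of the same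
degree with `ω(e') < ω(e)`: `quart g u = 0` says `u₁² u₃² =` a combination of the monomials
`u₀ u₂ u₃²` (weight 8, exponent of `u₁`: 0), `u₁ u₂² u₃` (8, 1), `u₂⁴` (8, 0) and of monomials of weight
`< 8`, and `(8, 2)` is larger; multiply by `mon (e - (0,2,0,2))`. (2) By strong induction on `ω`, every
monomial of degree `κ` is congruent on `X` to a combination of `mon e'`, `e' ∈ Ex κ`, with
`ω(e') ≤ ω(e)`, strictly smaller if `e ∉ Ex κ`. (3) `mon e (uni c u) = mon e u +` combination of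
monomials of degree `κ` of smaller weight (every `u_i` changes by multiples of `u_l`, `l < i`, of
smaller weight). So for `e ∈ Ex κ`: `mon e (uni c u) = ∑_{e'} T e e' mon e' u` on `X` with
`T e e = 1` and `T e e' = 0` unless `e' = e` or `ω(e') < ω(e)`; `det T = 1` (`ω` is not injective on
`Ex κ`, but for `e' ≠ e` with equal `ω` we have `T e e' = 0`: refine the order, or use
`Matrix.BlockTriangular` / `Matrix.det_of_upperTriangular` for a linear order refining `ω`, e.g. the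
lexicographic order of `(wt e, e 1, e 3)`; given the total degree this triple determines `e`). The
matrices satisfy `M' = M T^t`. -/
def UnvStatement : Prop :=
  ∀ (E : Type) [Field E] (g : E[X]) (c : Fin 6 → E) (κ : ℕ) (p : (Ex κ) → Fin 4 → E),
    (∀ j, quart g (p j) = 0) →
    (Matrix.of fun (j e : Ex κ) => mon e.1 (uni c (p j))).det =
      (Matrix.of fun (j e : Ex κ) => mon e.1 (p j)).det

/-- **Row DTB** (size of a determinant). PROOF. `Matrix.det_apply`: sum over the permutations; each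
term is at most `∏ r j * ∏ c e` (reindex the product of the `c`). -/
def DtbStatement : Prop :=
  ∀ (E : Type) [Field E] (v : AbsoluteValue E ℝ) (n : Type) [Fintype n] [DecidableEq n]
    (M : Matrix n n E) (r c : n → ℝ), (∀ j, 0 ≤ r j) → (∀ e, 0 ≤ c e) →
    (∀ j e, v (M j e) ≤ r j * c e) →
    v M.det ≤ (Fintype.card n).factorial * ((∏ j, r j) * ∏ e, c e) ∧
    (IsNonarchimedean v → v M.det ≤ (∏ j, r j) * ∏ e, c e)

/-- **Row CTS** (counting). PROOF. For fixed `J = e 0 + e 1` the exponents are given by `b = e 1 ≤ J`,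
`d = e 3 ≤ κ - J` with `b ≤ 1 ∨ d ≤ 1`; `wt e = b + d + 2 (κ - J)`. Their number is
`(J + 1)(κ - J + 1) - (J - 1)(κ - J - 1) = 2 κ` for `1 ≤ J ≤ κ - 1`, and `κ + 1` for `J = 0, κ`. Sum over
`J`. (Checked by computer for `κ ≤ 14`.) Suggestion: write the sum over `Ex κ` as the sum over all
exponents of degree `κ` minus the sum over those with `e 1 ≥ 2`, `e 3 ≥ 2` (shift by `(0,2,0,2)`: all
exponents of degree `κ - 4`), and the sums over all exponents of degree `n` by induction, e.g. with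
`Finset.sum_comm` on the triangle. -/
def CtsStatement : Prop :=
  ∀ κ : ℕ, 0 < κ → (Ex κ).card = 2 * κ ^ 2 + 2 ∧
    3 * ∑ e ∈ Ex κ, jj e ^ 2 = κ ^ 2 * (2 * κ ^ 2 + 4) ∧
    3 * (∑ e ∈ Ex κ, wt e : ℕ) + 2 * κ = 8 * κ ^ 3 + 6 * κ ^ 2 + 6

/-- **Row LDT** (the determinant at the three kinds of places; uses PLF, PLI, PLN, UNV, DTB, CTS, KQU).
`N = 2 κ² + 2`. PROOF. `D = det (mon e (kum (A j) (B j)))` over `K`, nonzero. `i D` is the determinant for
the vectors `i (kum ..)` (`RingHom.map_det`), which lie on the quartic of `f.map i` (KQU), so by UNV it is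
the determinant for the adapted vectors; DTB. Finite: `r j = exp(κ (Lv_j - (1/2) log v(discr) -
c2 log v 2))`, `c e = 1`. Node: `r j = exp(κ Lv_j)`, `c e = exp(-log v(discr f) (jj e)²/(4κ))`,
`∑ (jj e)²/(4κ) = (κ³ + 2κ)/6` (CTS); if all `k j * s₁` are integers: `c e = 1`. Infinite:
`r j = exp(κ (Lv_j - (1/2) log v(discr) + ci + 7 log spr))`, `c e = exp(wt e * log spr)`,
`v D ≤ N! ∏ r ∏ c`; `7 κ N + ∑ wt = (50 κ³ + 6 κ² + 40 κ + 6)/3`. Take logarithms. In part 3 the integers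
`k j` are multiples of `m₀`, and `n ≤ n₀` divides `m₀` (`n₀`, `m₀` as in the hypothesis), so
`k j * s₁ ∈ ℤ` because `n s₁ ∈ ℤ`. -/
def LdtStatement : Prop :=
  (∃ c2 : ℝ, 0 ≤ c2 ∧ ∀ (K : Type) [Field K] [NumberField K] (v : FinitePlace K) (f : K[X])
    (κ : ℕ) (A B U W : Ex κ → K[X]) (M : Ex κ → ℕ), f.Monic → f.natDegree = 5 → Squarefree f →
    (∀ n, v (f.coeff n) ≤ 1) → 0 < κ → (∀ j, VG f (A j) (B j)) →
    (∀ j, Gen f (A j) (B j) (U j) (W j) (M j)) →
    (Matrix.of fun (j e : Ex κ) => mon e.1 (kum f (A j) (B j))).det ≠ 0 →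
    Real.log (v (Matrix.of fun (j e : Ex κ) => mon e.1 (kum f (A j) (B j))).det) ≤
      κ * ∑ j, Lv v f (A j) (U j) (M j) -
        κ * (2 * κ ^ 2 + 2) * ((1 / 2) * Real.log (v (discr f)) + c2 * Real.log (v 2))) ∧
  (∀ κ : ℕ, ∃ Ck : ℝ, 0 ≤ Ck ∧ ∀ (K : Type) [Field K] [NumberField K] (v : InfinitePlace K)
    (f : K[X]) (A B U W : Ex κ → K[X]) (M : Ex κ → ℕ), f.Monic → f.natDegree = 5 →
    Squarefree f → 0 < κ → (∀ j, VG f (A j) (B j)) →
    (∀ j, Gen f (A j) (B j) (U j) (W j) (M j)) →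
    (Matrix.of fun (j e : Ex κ) => mon e.1 (kum f (A j) (B j))).det ≠ 0 →
    Real.log (v (Matrix.of fun (j e : Ex κ) => mon e.1 (kum f (A j) (B j))).det) ≤
      κ * ∑ j, Lv v f (A j) (U j) (M j) -
        κ * (2 * κ ^ 2 + 2) * ((1 / 2) * Real.log (v (discr f))) +
        (50 * κ ^ 3 + 6 * κ ^ 2 + 40 * κ + 6) / 3 * Real.log (spr (f.map v.embedding)) + Ck) ∧
  (∀ (K : Type) [Field K] [NumberField K] (v : FinitePlace K) (f : K[X]) (n m₀ n₀ : ℕ)
    (κ : ℕ) (I : Ideal (Q K f)) (A B U W : Ex κ → K[X]) (M k : Ex κ → ℕ), f.Monic →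
    f.natDegree = 5 → Squarefree f → NodeShape v.val f → 0 < n →
    v (discr f) * (Ideal.absNorm v.maximalIdeal.asIdeal : ℝ) ^ n = 1 → 0 < κ → I ≠ ⊥ →
    (∀ m, 0 < m → m ≤ n₀ → m ∣ m₀) →
    (∀ j, VG f (A j) (B j) ∧ SameCl (MI f (A j) (B j)) (I ^ (m₀ * k j))) →
    (∀ j, Gen f (A j) (B j) (U j) (W j) (M j)) →
    (Matrix.of fun (j e : Ex κ) => mon e.1 (kum f (A j) (B j))).det ≠ 0 →
    Real.log (v (Matrix.of fun (j e : Ex κ) => mon e.1 (kum f (A j) (B j))).det) ≤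
      κ * ∑ j, Lv v f (A j) (U j) (M j) -
        (if n ≤ n₀ then 0 else (κ ^ 3 + 2 * κ) / 6 * Real.log (v (discr f))))

/-- **Row GLB** (the main inequality; uses LDT, PFS, QVN, DSH). `S` = finite set of odd simple nodes,
`T_S = - ∑_S log v(discr f)`, `T' =` the part with `n_v > n₀`. PROOF. `D` = the determinant, `D ≠ 0`. Choose
a finite set `T` of finite places which contains `S`, all `v` with `v (discr f) ≠ 1` or `v 2 ≠ 1` or
`v D ≠ 1`, and the sets `T₀` of PFS for all `j`. Product formula for `D` (`prod_abs_eq_one` as in PFS):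
`0 = ∑_inf mult log v D + ∑_T log v D`. Insert LDT (part 2, part 1 for `T \ S`, part 3 for `S`, `n` from
QVN). `∑_v Lv = 0` for every `j` (PFS). `∑_inf mult log v(discr) + ∑_T log v(discr) = 0` (DSH, last part),
`∑_T log v 2 ≥ - [K:ℚ] log 2`. So
`0 ≤ - κ (κ² + 1) T_S + (50 κ³ + 6 κ² + 40 κ + 6)/3 lH f + (κ³ + 2κ)/6 T' + C [K:ℚ]`,
`C = Ck + κ (2κ² + 2) c2 log 2`, `∑_inf mult = [K:ℚ]`; `n_v > n₀` iff `v(discr f) Nv^n₀ < 1`. -/
def GlbStatement : Prop :=
  ∀ κ : ℕ, 0 < κ → ∃ Cc : ℝ, 0 ≤ Cc ∧ ∀ (K : Type) [Field K] [NumberField K] (f : K[X])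
    (m₀ n₀ : ℕ) (I : Ideal (Q K f)) (A B U W : Ex κ → K[X]) (M k : Ex κ → ℕ)
    (S : Finset (FinitePlace K)), f.Monic → f.natDegree = 5 → Squarefree f →
    (∀ n, IsIntegral ℤ (f.coeff n)) → I ≠ ⊥ → (∀ m, 0 < m → m ≤ n₀ → m ∣ m₀) →
    (∀ v ∈ S, NodeShape v.val f ∧ v (discr f) < 1) →
    (∀ j, VG f (A j) (B j) ∧ SameCl (MI f (A j) (B j)) (I ^ (m₀ * k j))) →
    (∀ j, Gen f (A j) (B j) (U j) (W j) (M j)) →
    (Matrix.of fun (j e : Ex κ) => mon e.1 (kum f (A j) (B j))).det ≠ 0 →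
    κ * (κ ^ 2 + 1) * (- ∑ v ∈ S, Real.log (v (discr f))) ≤
      (50 * κ ^ 3 + 6 * κ ^ 2 + 40 * κ + 6) / 3 * lH f +
      (κ ^ 3 + 2 * κ) / 6 * (- ∑ v ∈ S with
        v (discr f) * (Ideal.absNorm v.maximalIdeal.asIdeal : ℝ) ^ n₀ < 1,
          Real.log (v (discr f))) + Cc * Module.finrank ℚ K

/-! ## Block 4: from vanishing determinants to a polynomial -/

/-- **Row LMN** (linear algebra). PROOF. If no nonzero `c` kills all vectors `P i`, then the `P i` span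
`n → K` (otherwise a nonzero linear form vanishes on the span), so some `card n` of them form a basis
(`Basis.ofVectorSpace` / `exists_linearIndependent`), reindexed by `n`: the determinant is not 0. -/
def LmnStatement : Prop :=
  ∀ (K : Type) [Field K] (n : Type) [Fintype n] [DecidableEq n] (ι : Type) (P : ι → n → K),
    (∀ r : n → ι, (Matrix.of fun j e => P (r j) e).det = 0) →
    ∃ c : n → K, c ≠ 0 ∧ ∀ i, ∑ e, c e * P i e = 0

/-- **Row INA** (algebra of the quartic). `R = K[p][s]` = `(K[X])[X]`: inner variable `p`, outer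
variable `s`; `K₂ = s² - 4 p`. PROOF. First from `K₂^m F = κ Q` to `F = κ Q'`: `K₂` is a prime element of
`R` (`R/(K₂) ≅ K[s]` because `p = s²/4`; or: `K₂` is monic of degree 2 in `s`, reduce modulo `K₂` by the
homomorphism `s ↦ s`, `p ↦ s²/4` to `K[s]`, whose kernel is `(K₂)`), and the image of `κ = K₂ T² +
K₁ T + K₀` in `K[s][T]` is not 0 (`K₁ ≠ 0` modulo `K₂` by hypothesis). So `κ` times (image of `Q`) `= 0`
in the domain `K[s][T]` if `m ≥ 1`: `K₂` divides all coefficients of `Q`; cancel; induction on `m`.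
Then `F = κ Q'`: if `Q' ≠ 0`, the leading coefficient of `F` (in `T`) is `K₂ * lc(Q')`, its `s`-degree is
`≥ 2` (domain, `K₂` monic of degree 2), and `deg_T F ≥ 2`: contradiction to the hypothesis on `F`. -/
def InaStatement : Prop :=
  ∀ (K : Type) [Field K] (K₁ K₀ : K[X][X]) (F G : K[X][X][X]) (m : ℕ), (2 : K) ≠ 0 →
    ¬ (X ^ 2 - C (C 4 * X) : K[X][X]) ∣ K₁ → (∀ d, 2 ≤ d → (F.coeff d).natDegree ≤ 1) →
    C ((X ^ 2 - C (C 4 * X) : K[X][X]) ^ m) * F =
      (C (X ^ 2 - C (C 4 * X)) * X ^ 2 + C K₁ * X + C K₀) * G → F = 0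

/-- **Row INB** (the combination of the monomials is not 0 on `J`; uses INA, KQU). PROOF. Let
`E` = algebraic closure of the fraction field of `K[s, p]` (two variables), `A = x² - s x + p`, roots
`x₁ ≠ x₂` in `E` (`s² ≠ 4p`), `y_i² = f(x_i)`, `y_i ≠ 0` (`x_i` is transcendental over `K`: otherwise `x_i`
algebraic and `p = x_i (s - x_i)` gives an algebraic relation between `s` and `p`). Two Mumford pairs
`(A, B)`, `(A, B^-)`: `B(x₁) = y₁`, `B(x₂) = ± y₂`. Their fourth Kummer coordinates `β, β^-` are the two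
roots in `T` of `κ = quart (1, s, p, T)`, and they are different (`b₁² - (b₁^-)² =
-4 y₁ y₂/(x₁ - x₂)²`). Suppose the sum vanishes for both. Then `F = ∑ c_e s^(e 1) p^(e 2) T^(e 3)`
vanishes at `T = β, β^-`, so `κ` divides `F` in `Frac(K[s,p])[T]`, so `K₂^m F = κ G` in `K[s,p][T]`
(division by a polynomial with leading coefficient `K₂`), and INA gives `F = 0` (for `e ∈ Ex κ`:
`e 3 ≥ 2` implies `e 1 ≤ 1`; `K₁ = -2 (2 f₀ + f₁ s + 2 f₂ p + f₃ s p + 2 f₄ p² + s p²)` is not divisible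
by `s² - 4 p`: put `p = s²/4`, the leading term is `- s⁵/8`, up to a factor). But the monomials
`s^(e 1) p^(e 2) T^(e 3)`, `e ∈ Ex κ` (degree `κ` fixed), are different, so `c = 0`. -/
def InbStatement : Prop :=
  ∀ (K : Type) [Field K] [CharZero K] (f : K[X]) (κ : ℕ) (c : Ex κ → K), f.Monic →
    f.natDegree = 5 → Squarefree f → c ≠ 0 →
    ∃ (E : Type) (_ : Field E) (φ : K →+* E) (A B : E[X]), Mum (f.map φ) A B ∧
      A.natDegree = 2 ∧ (A.coeff 1) ^ 2 ≠ 4 * A.coeff 0 ∧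
      ∑ e, φ (c e) * mon e.1 (kum (f.map φ) A B) ≠ 0

/-- **Row VGT** (very good: one field is enough). PROOF. Let `φ : K → E'` and roots `a ≠ b` of `f.map φ` in
`E'` with `tau = 0`. `a, b` are algebraic over `K` (via `φ`), so there is a `K`-homomorphism from
`K(a, b)` (`IntermediateField.adjoin` for the algebra `φ.toAlgebra`) to the algebraically closed `E`;
the images `a' ≠ b'` are roots with `tau = 0` (`kum` and `GG` have coefficients in `K`). -/
def VgtStatement : Prop :=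
  ∀ (K E : Type) [Field K] [Field E] [IsAlgClosed E] (ψ : K →+* E) (f A B : K[X]), f.Monic →
    Good f A B → (∀ c d, (f.map ψ).IsRoot c → (f.map ψ).IsRoot d → c ≠ d →
      tau (f.map ψ) c d (fun i => ψ (kum f A B i)) ≠ 0) → VG f A B

/-- **Row VGC** (few multiples are not very good; uses CNT or its method: PAI, SID, MII, BDK, and TRL,
GMP, VGT, `UBT.BC1Stmt`). Given: an ideal `I` of exact order `N`, and for every `k` reduced data
`(A k, B k)` in the class of `I^k`. PROOF. CNT: at most `6 (sqrt(2N) + 1) + 2` values `k < N` are not good.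
Let `E` be the algebraic closure of `K`; by VGT for a good `k` which is not very good there are two
roots `a ≠ b` of `f` in `E` with `tau_{ab} = 0`. At most 10 pairs `{a, b}`; fix one. Over `E`
(`I_E = I.map`, exact order `N` by BC1): TRL for `(A k, B k)_E, a`: `A'(b) A(a) = (a - b) tau = 0`, so
`A'(b) = 0`, and `(A', B')` is not good; BDK: `MI f A' B' = I_t P` with `t = b` or
(`A' = (X - b)(X - x)`; choose `t = b` in the proof of BDK: `MI f A' B' = I_b * MI f (X - C x) (C y)`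
because `B'(b) = 0`), so `P_k = MI f (X - C x) (C y)` is in the class of
`MI f (A k) (B k) * I_a * I_b` (`Trl.idl`, MII: `I_b² ~ 1`). Then for two such `k, l`:
`P_k P_l ~ I_E^(k+l) (I_a I_b)² ~ I_E^(k+l)`: PAI and SID as in CNT (the data `P_k` determine the
class of `I^k`, so `k`): at most `sqrt(2N) + 1` values. Total
`≤ 16 (sqrt(2N) + 1) + 2 ≤ 40 (sqrt N + 1)`. -/
def VgcStatement : Prop :=
  ∀ (K : Type) [Field K] [CharZero K] (f : K[X]) (I : Ideal (Q K f)) (N : ℕ) (A B : ℕ → K[X]),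
    f.Monic → f.natDegree = 5 → Squarefree f → I ≠ ⊥ → 0 < N →
    (∀ j : ℕ, (I ^ j).IsPrincipal ↔ N ∣ j) →
    (∀ k, Mum f (A k) (B k) ∧ (A k).natDegree ≤ 2 ∧ SameCl (MI f (A k) (B k)) (I ^ k)) →
    ({k : ℕ | k < N ∧ ¬ VG f (A k) (B k)}.ncard : ℝ) ≤ 40 * (Real.sqrt N + 1)

/-- **Row KFN** (assembly; uses GLB, LMN, INB, VGC, ZERO, PEL, REX, DSH, QVN, GPR, `UBT.DedStmt`).
PROOF. `d, ε` given, WLOG `ε ≤ 1`. `κ = ⌈48/ε⌉ + 2`, `n₀ = ⌈40/ε⌉`, `m₀ = n₀!`; `Cc` from GLB for `κ`;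
`h₁ = Cc d`; `B₁` from GPR for `Δ = exp(20 h₁)`; `B₂` from ZERO for the degree `e = κ + 40`;
`B = max (m₀ B₂) B₁ B₂`. Let `c` have order `n`; REX gives `(A₁, B₁)` for `c`, `I = MI f A₁ B₁`;
`c^m₀` has order `N = n / gcd(n, m₀)`, `n ≤ m₀ N`; `(I^(m₀ j)).IsPrincipal ↔ N ∣ j`
(`ClassGroup.mk0_eq_one_iff`). `A k, B k` reduced data for `c^(m₀ k)` (REX, `SameCl` from
`ClassGroup.mk0_eq_mk0_iff`). `𝒢` = the set of the `k < N` with `VG f (A k) (B k)`; for `k ∈ 𝒢` `Gen` from PEL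
with `M = 2N`. CASE 1: for some `r : Ex κ → 𝒢` the determinant of `mon e (kum (A (r j)) (B (r j)))` is
not 0. GLB (`k j = r j`): with `h = lH f`, `T = T_S`, `T'` as there, `R = ∑_S log Nv`:
`κ (κ² + 1) T ≤ γ h + β T' + Cc d`, `β = (κ³ + 2κ)/6`, `γ = (50 κ³ + 6 κ² + 40 κ + 6)/3`. As in FIN of SZT
`R ≤ (T - T') + T/n₀`, so `T' ≤ (1 + 1/n₀) T - R ≤ (6 + 1/n₀) T - (100 + ε) h`
(`(100 + ε) h ≤ R + 5 T`). `κ(κ²+1) - 6 β = -κ`, `100 β - γ = -2κ² + 20κ - 2`. Hence
`0 ≤ κ T + (β/n₀) T + (2κ² - 20κ + 2 - ε β) h + Cc d` and `T ≤ 20 h` (DSH) gives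
`(ε β - 20 β/n₀ - 2κ² - 2) h ≤ Cc d`; `20 β/n₀ ≤ ε β/2`, `ε β/2 ≥ ε κ³/12 ≥ 4 κ²`: `h ≤ Cc d = h₁`
(`2κ² - 2 ≥ 1`). `|N(discr f)| ≤ exp(20 h)` (DSH), GPR: `n ≤ B₁`. CASE 2: all these determinants vanish.
LMN (`ι = 𝒢`): a nonzero `c₀ : Ex κ → K` with `∑ c₀ e mon e (kum (A k) (B k)) = 0` for all `k ∈ 𝒢`. Let
`P = ∑ c₀ e X^e` (`MvPolynomial`, total degree `≤ κ`), INB gives the point where it does not vanish.
ZERO for `P`, the ideal `I^m₀`, `N`: the exceptional `j` are among those with `¬ VG` (VGC: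
`≤ 40 (sqrt N + 1)`). So `N ≤ B₂` or `Thin B₂ f`; `Thin` is monotone in `B`. -/
def KfnStatement : Prop := KdtStatement

end Pool.Agent.KDT
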