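import Pool.Agent.SZT.Defs
import Pool.Agent.SZT.StmtsC

set_option autoImplicit false

/-!
# KDT (MP_160b6c_nt): Kummer determinants. Definitions and interface.

`f` is a monic squarefree quintic over `K`, `Q K f = K[x,y]/(y^2 - f)`. A Mumford pair `(A, B)` with
`A = x² - s x + p`, `B = b₁ x + b₀` has the Kummer vector `(1, s, p, k₄)`,
`k₄ = b₁² - s³ + s p - f₄ s² - f₃ s - f₂`.
-/

namespace Pool.Agent.KDT

open Polynomial NumberField H58Q Pool.Agent.SZT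

/-! ### the Kummer surface -/

/-- The Kummer vector of the Mumford pair `(A, B)`, `deg A = 2`. -/
noncomputable def kum {K : Type} [Field K] (f A B : K[X]) : Fin 4 → K :=
  ![1, -A.coeff 1, A.coeff 0,
    (B.coeff 1) ^ 2 - (-A.coeff 1) ^ 3 + (-A.coeff 1) * A.coeff 0 - f.coeff 4 * (-A.coeff 1) ^ 2
      - f.coeff 3 * (-A.coeff 1) - f.coeff 2]

/-- The Kummer quartic of `y² = f(x)`, `f` a monic quintic. -/
noncomputable def quart {K : Type} [Field K] (f : K[X]) (u : Fin 4 → K) : K :=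
  ((u 1) ^ 2 - 4 * u 0 * u 2) * (u 3) ^ 2
    - 2 * (2 * (u 0) ^ 3 * f.coeff 0 + (u 0) ^ 2 * u 1 * f.coeff 1
        + 2 * (u 0) ^ 2 * u 2 * f.coeff 2 + u 0 * u 1 * u 2 * f.coeff 3
        + 2 * u 0 * (u 2) ^ 2 * f.coeff 4 + u 1 * (u 2) ^ 2) * u 3
    + (-4 * (u 0) ^ 4 * f.coeff 0 * f.coeff 2 + (u 0) ^ 4 * (f.coeff 1) ^ 2
        - 4 * (u 0) ^ 3 * u 1 * f.coeff 0 * f.coeff 3
        - 2 * (u 0) ^ 3 * u 2 * f.coeff 1 * f.coeff 3
        - 4 * (u 0) ^ 2 * (u 1) ^ 2 * f.coeff 0 * f.coeff 4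
        + 4 * (u 0) ^ 2 * u 1 * u 2 * f.coeff 0
        - 4 * (u 0) ^ 2 * u 1 * u 2 * f.coeff 1 * f.coeff 4
        + 2 * (u 0) ^ 2 * (u 2) ^ 2 * f.coeff 1
        - 4 * (u 0) ^ 2 * (u 2) ^ 2 * f.coeff 2 * f.coeff 4
        + (u 0) ^ 2 * (u 2) ^ 2 * (f.coeff 3) ^ 2
        - 4 * u 0 * (u 1) ^ 3 * f.coeff 0
        - 4 * u 0 * (u 1) ^ 2 * u 2 * f.coeff 1
        - 4 * u 0 * u 1 * (u 2) ^ 2 * f.coeff 2
        - 2 * u 0 * (u 2) ^ 3 * f.coeff 3 + (u 2) ^ 4)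

/-- `G(a, b)`, symmetric. -/
noncomputable def GG {K : Type} [Field K] (f : K[X]) (a b : K) : K :=
  (a + b) * (a ^ 2 + a * b + b ^ 2) + f.coeff 4 * (a + b) ^ 2 + f.coeff 3 * (a + b) + f.coeff 2

/-- The trope of two roots `a, b` of `f`. -/
noncomputable def tau {K : Type} [Field K] (f : K[X]) (a b : K) (u : Fin 4 → K) : K :=
  u 3 - (a + b) * u 2 + a * b * u 1 + GG f a b * u 0

/-- A unipotent change of coordinates. -/
def uni {K : Type} [Field K] (c : Fin 6 → K) (u : Fin 4 → K) : Fin 4 → K :=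
  ![u 0, u 1 + c 0 * u 0, u 2 + c 1 * u 1 + c 2 * u 0, u 3 + c 3 * u 2 + c 4 * u 1 + c 5 * u 0]

/-- The adapted coordinates of the roots `a, b` of `f`: `(1, s - (a+b), A(a), tau)`. -/
noncomputable def adc {K : Type} [Field K] (f : K[X]) (a b : K) : Fin 6 → K :=
  ![-(a + b), -a, a ^ 2, -(a + b), a * b, GG f a b]

/-! ### monomials -/

/-- The exponents of degree `k` which are not divisible by `u₁² u₃²`. -/
def Ex (k : ℕ) : Finset (Fin 4 → ℕ) :=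
  (Fintype.piFinset fun _ => Finset.range (k + 1)).filter fun e =>
    e 0 + e 1 + e 2 + e 3 = k ∧ (e 1 ≤ 1 ∨ e 3 ≤ 1)

/-- A monomial. -/
def mon {K : Type} [Field K] (e : Fin 4 → ℕ) (u : Fin 4 → K) : K := ∏ i, u i ^ e i

/-- The weight, weights `0, 1, 2, 3`. -/
def wt (e : Fin 4 → ℕ) : ℕ := e 1 + 2 * e 2 + 3 * e 3

/-- The number of factors `u₀`, `u₁`. -/
def jj (e : Fin 4 → ℕ) : ℕ := e 0 + e 1

/-! ### very good points -/

/-- Very good: `(A, B)` is good and no trope vanishes (roots in any extension field): the point is on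
none of the 16 translates of the theta divisor by 2-torsion points. -/
def VG {K : Type} [Field K] (f A B : K[X]) : Prop :=
  Good f A B ∧ ∀ (E : Type) [Field E] (φ : K →+* E) (a b : E), (f.map φ).IsRoot a →
    (f.map φ).IsRoot b → a ≠ b → tau (f.map φ) a b (fun i => φ (kum f A B i)) ≠ 0

/-- A generator of the `M`-th power of the ideal of a good point: `M` even. -/
structure Gen {K : Type} [Field K] (f A B U W : K[X]) (M : ℕ) : Prop where
  pos : 0 < M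
  even : Even M
  gen : (MI f A B) ^ M = Ideal.span {(⟨U, W⟩ : Q K f)}
  pell : U ^ 2 - f * W ^ 2 = A ^ M
  cop : IsCoprime A U

/-! ### thin subgroups -/

/-- `J` has, over an algebraically closed field `F ⊇ K`, an infinite subgroup which is contained in a
curve of degree at most `B`: all its elements `[(x₁,y₁) + (x₂,y₂) - 2 ∞]` satisfy
`Ψ(x₁ + x₂, x₁ x₂) = 0`. (Then the Jacobian contains an elliptic curve over `F`.) -/
def Thin (B : ℕ) {K : Type} [Field K] (f : K[X]) : Prop :=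
  ∃ (F : Type) (_ : Field F) (_ : IsAlgClosed F) (φ : K →+* F) (Y : UBT.OddCurve F)
    (_ : IsDedekindDomain (Q F Y.f)) (Γ : Subgroup Y.Jac) (Ψ : MvPolynomial (Fin 2) F),
    Y.f = f.map φ ∧ Infinite Γ ∧ Ψ ≠ 0 ∧ Ψ.totalDegree ≤ B ∧
    ∀ (A B' : F[X]) (h : MI Y.f A B' ∈ nonZeroDivisors (Ideal (Q F Y.f))), Mum Y.f A B' →
      A.natDegree = 2 → ClassGroup.mk0 ⟨MI Y.f A B', h⟩ ∈ Γ →
      MvPolynomial.eval ![-A.coeff 1, A.coeff 0] Ψ = 0

/-- **ZERO** (output of the zero estimate, block Z). -/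
def ZeroStatement : Prop :=
  ∀ e : ℕ, ∃ B : ℕ, ∀ (K : Type) [Field K] [CharZero K] (f : K[X]), f.Monic → f.natDegree = 5 →
    Squarefree f → ∀ P : MvPolynomial (Fin 4) K, P.totalDegree ≤ e →
    (∃ (E : Type) (_ : Field E) (φ : K →+* E) (A B : E[X]), Mum (f.map φ) A B ∧
      A.natDegree = 2 ∧ (A.coeff 1) ^ 2 ≠ 4 * A.coeff 0 ∧
      MvPolynomial.eval₂ φ (kum (f.map φ) A B) P ≠ 0) →
    ∀ (I : Ideal (Q K f)) (N : ℕ), I ≠ ⊥ → 0 < N → (∀ j : ℕ, (I ^ j).IsPrincipal ↔ N ∣ j) →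
    ({j : ℕ | j < N ∧ ¬ ∃ A B : K[X], Mum f A B ∧ A.natDegree = 2 ∧
      SameCl (MI f A B) (I ^ j) ∧ MvPolynomial.eval (kum f A B) P = 0}.ncard : ℝ)
      ≤ e * (Real.sqrt N + 1) →
    N ≤ B ∨ Thin B f

/-- **KDT.** -/
def KdtStatement : Prop :=
  ∀ (d : ℕ) (ε : ℝ), 0 < ε → ∃ B : ℕ, ∀ (K : Type) [Field K] [NumberField K],
    Module.finrank ℚ K ≤ d → ∀ (Y : UBT.OddCurve K), Y.f.Monic → Y.f.natDegree = 5 →
    (∀ n, IsIntegral ℤ (Y.f.coeff n)) →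
    ∀ S : Finset (FinitePlace K), (∀ v ∈ S, NodeShape v.val Y.f ∧ v (discr Y.f) < 1) →
    (100 + ε) * lH Y.f ≤ ∑ v ∈ S, (Real.log (Ideal.absNorm v.maximalIdeal.asIdeal) +
      5 * (- Real.log (v (discr Y.f)))) →
    (∀ c : Y.Jac, IsOfFinOrder c → orderOf c ≤ B) ∨ Thin B Y.f

end Pool.Agent.KDT
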