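import Pool.Agent.KDT.Defs

set_option autoImplicit false

/-!
# KDT (MP_160b6c_nt), block Z (zero estimate): definitions

A point of the Jacobian outside the theta divisor is given by its Mumford vector `q = (s, p, b₀, b₁)`:
`A = x² - s x + p`, `B = b₁ x + b₀`, `A` divides `B² - f`.
-/

namespace Pool.Agent.KDT.Z

open Polynomial H58Q Pool.Agent.SZT

section vectors

variable {F : Type} [Field F]

/-- `A = x² - s x + p` -/
noncomputable def pA (q : Fin 4 → F) : F[X] := X ^ 2 - C (q 0) * X + C (q 1)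

/-- `B = b₁ x + b₀` -/
noncomputable def pB (q : Fin 4 → F) : F[X] := C (q 3) * X + C (q 2)

/-- `q` is a Mumford vector -/
def On (f : F[X]) (q : Fin 4 → F) : Prop := pA q ∣ pB q ^ 2 - f

/-- the inverse: `(s, p, -b₀, -b₁)` -/
def ngv (q : Fin 4 → F) : Fin 4 → F := ![q 0, q 1, -q 2, -q 3]

/-- the resultant of `A_q` and `A_t` -/
def rr (q t : Fin 4 → F) : F :=
  (q 1 - t 1) ^ 2 + (t 0 - q 0) * (q 1 - t 1) * t 0 + (t 0 - q 0) ^ 2 * t 1

/-- `rr` times the leading coefficient of the cubic interpolation polynomial -/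
def ro (q t : Fin 4 → F) : F := (t 3 - q 3) * (q 1 - t 1) - (t 0 - q 0) * (t 2 - q 2)

/-- auxiliary -/
def mu (q t : Fin 4 → F) : F :=
  ((t 0 - q 0) * t 0 + (q 1 - t 1)) * (t 2 - q 2) + (t 0 - q 0) * t 1 * (t 3 - q 3)

/-- the coefficients of the cubic `L` with `L = B_q mod A_q`, `L = B_t mod A_t` -/
def l3 (q t : Fin 4 → F) : F := ro q t / rr q t

def l2 (q t : Fin 4 → F) : F := (mu q t - q 0 * ro q t) / rr q t

def l1 (q t : Fin 4 → F) : F := q 3 + (q 1 * ro q t - q 0 * mu q t) / rr q t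

def l0 (q t : Fin 4 → F) : F := q 2 + q 1 * mu q t / rr q t

/-- the cubic `L` -/
noncomputable def lin (q t : Fin 4 → F) : F[X] :=
  C (l3 q t) * X ^ 3 + C (l2 q t) * X ^ 2 + C (l1 q t) * X + C (l0 q t)

/-- `s` of the sum -/
def cs (q t : Fin 4 → F) : F := -q 0 - t 0 - (2 * l3 q t * l2 q t - 1) / l3 q t ^ 2

/-- `p` of the sum; `f4` is the coefficient of `x⁴` in `f` -/
def cp (f4 : F) (q t : Fin 4 → F) : F :=
  (l2 q t ^ 2 + 2 * l3 q t * l1 q t - f4) / l3 q t ^ 2 - cs q t * (q 0 + t 0)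
    - (q 1 + t 1 + q 0 * t 0)

/-- the Mumford vector of the sum (generic case) -/
def cmp (f4 : F) (q t : Fin 4 → F) : Fin 4 → F :=
  ![cs q t, cp f4 q t, l3 q t * cs q t * cp f4 q t + l2 q t * cp f4 q t - l0 q t,
    -(l3 q t * (cs q t ^ 2 - cp f4 q t) + l2 q t * cs q t + l1 q t)]

end vectors

/-- A point of the affine curve `y² = f(x)`. -/
structure Pt {F : Type} [Field F] (f : F[X]) where
  a : F
  b : F
  on : b ^ 2 = f.eval a

/-- `(a, -b)` -/
def Pt.neg {F : Type} [Field F] {f : F[X]} (z : Pt f) : Pt f :=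
  ⟨z.a, -z.b, by rw [neg_sq]; exact z.on⟩

/-- **The Jacobian, abstractly.** `J` is an abelian group, `th z = [z - ∞]`, `cl q` = the class of the
Mumford vector `q`. -/
structure JG {F : Type} [Field F] (f : F[X]) (J : Type) [AddCommGroup J] (th : Pt f → J)
    (cl : (Fin 4 → F) → J) : Prop where
  th_neg : ∀ z, th z.neg = - th z
  th_ne : ∀ z, th z ≠ 0
  th_inj : ∀ z w, th z = th w → z = w
  th_pair : ∀ z w z' w', th z + th w = th z' + th w' → th z + th w ≠ 0 →
    (z = z' ∧ w = w') ∨ (z = w' ∧ w = z')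
  cl_inj : ∀ q t, On f q → On f t → cl q = cl t → q = t
  cl_ngv : ∀ q, On f q → On f (ngv q) ∧ cl (ngv q) = - cl q
  cl_ne : ∀ q, On f q → cl q ≠ 0
  cl_th : ∀ q z, On f q → cl q ≠ th z
  cover : ∀ c, c = 0 ∨ (∃ z, c = th z) ∨ ∃ q, On f q ∧ c = cl q
  split : ∀ (q : Fin 4 → F) (z w : Pt f), On f q → pA q = (X - C z.a) * (X - C w.a) →
    (pB q).eval z.a = z.b → (pB q).eval w.a = w.b → cl q = th z + th w
  comp : ∀ q t, On f q → On f t → rr q t ≠ 0 → ro q t ≠ 0 →
    On f (cmp (f.coeff 4) q t) ∧ cl q + cl t = cl (cmp (f.coeff 4) q t)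
  exc : ∀ q t, On f q → On f t → rr q t ≠ 0 → ro q t = 0 →
    cl q + cl t = 0 ∨ ∃ z, cl q + cl t = th z

/-- `0` or a point of the theta divisor. -/
def Tht {F : Type} [Field F] {f : F[X]} {J : Type} [AddCommGroup J] (th : Pt f → J) (c : J) : Prop :=
  c = 0 ∨ ∃ z, c = th z

/-- `c` is the class of a Mumford vector which can be added to `t` by `cmp`. -/
def Good {F : Type} [Field F] (f : F[X]) {J : Type} (cl : (Fin 4 → F) → J) (c : J)
    (t : Fin 4 → F) : Prop :=
  ∃ q, On f q ∧ c = cl q ∧ rr q t ≠ 0 ∧ ro q t ≠ 0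

/-! ### two fields: `k` and `U`, both algebraically closed, `U` of transcendence degree 1 over `k` -/

section two

variable {k U : Type} [Field k] [Field U] [Algebra k U]

/-- The fields and the curve. `g` is `f` over `U`. -/
structure Env (k U : Type) [Field k] [Field U] [Algebra k U] (f : k[X]) (g : U[X]) : Prop where
  kc : IsAlgClosed k
  oc : IsAlgClosed U
  ch : CharZero k
  td : ∀ t : U, t ∉ (algebraMap k U).range →
    Algebra.IsAlgebraic (IntermediateField.adjoin k {t}) U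
  ne : ∃ t : U, t ∉ (algebraMap k U).range
  mo : f.Monic
  d5 : f.natDegree = 5
  sf : Squarefree f
  gm : g = f.map (algebraMap k U)

/-- a `k`-vector over `U` -/
def emb (U : Type) [Field U] [Algebra k U] (t : Fin 4 → k) : Fin 4 → U :=
  fun i => algebraMap k U (t i)

/-- `q` is generic: `(s, p)` is not in `k²`. -/
def Gnr (k : Type) {U : Type} [Field k] [Field U] [Algebra k U] (q : Fin 4 → U) : Prop :=
  ¬ (q 0 ∈ (algebraMap k U).range ∧ q 1 ∈ (algebraMap k U).range)

/-- the plane point `(s, p)` is a zero of `Φ` -/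
def Zr (Φ : MvPolynomial (Fin 2) k) (s p : U) : Prop := MvPolynomial.aeval ![s, p] Φ = 0

/-- `t` is a specialisation of `q` over `k` -/
def Spc (q : Fin 4 → U) (t : Fin 4 → k) : Prop :=
  ∀ G : MvPolynomial (Fin 4) k, MvPolynomial.aeval q G = 0 → MvPolynomial.eval t G = 0

/-- **The Jacobian over `U` with the `k`-structure.** `Jk` = the subgroup of the `k`-rational points,
`act` = the action of the automorphisms of `U` over `k`. -/
structure JK (f : k[X]) (g : U[X]) (J : Type) [AddCommGroup J] (th : Pt g → J)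
    (cl : (Fin 4 → U) → J) (act : (U ≃ₐ[k] U) → J →+ J) (Jk : AddSubgroup J) : Prop extends
    JG g J th cl where
  act_th : ∀ (σ : U ≃ₐ[k] U) (z w : Pt g), w.a = σ z.a → w.b = σ z.b → act σ (th z) = th w
  act_cl : ∀ (σ : U ≃ₐ[k] U) (q : Fin 4 → U), On g q →
    On g (fun i => σ (q i)) ∧ act σ (cl q) = cl (fun i => σ (q i))
  act_k : ∀ (σ : U ≃ₐ[k] U) (c : J), c ∈ Jk → act σ c = c
  mem_k : ∀ c, c ∈ Jk ↔ c = 0 ∨
    (∃ z : Pt g, (∃ a b : k, z.a = algebraMap k U a ∧ z.b = algebraMap k U b) ∧ c = th z) ∨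
    ∃ t : Fin 4 → k, On f t ∧ On g (emb U t) ∧ c = cl (emb U t)

/-- The stabiliser of the curve with the generic point `cl q`, as a set. -/
def Stb {J : Type} [AddCommGroup J] (cl : (Fin 4 → U) → J) (act : (U ≃ₐ[k] U) → J →+ J)
    (q : Fin 4 → U) : Set J :=
  {h | ∃ σ : U ≃ₐ[k] U, act σ (cl q) = cl q + h}

end two

end Pool.Agent.KDT.Z
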