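import Pool.Agent.KDT.StmtsM

set_option autoImplicit false

/-!
# KDT, block Z, part J: the Jacobian as a class group satisfies `JG` and `JK`.
Complete proofs in the docstrings. All the rows MII, MIK, UNQ, REX, PRO, PAI of SZT are proved.
-/

namespace Pool.Agent.KDT.Z

open Polynomial H58Q Pool.Agent.SZT

noncomputable section

open scoped Classical in
/-- The class of an ideal, written additively (0 for the zero ideal). -/
def clI {F : Type} [Field F] (f : F[X]) [Fact (Odd f.natDegree)] [IsDedekindDomain (Q F f)]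
    (I : Ideal (Q F f)) : Additive (ClassGroup (Q F f)) :=
  if h : I ∈ nonZeroDivisors (Ideal (Q F f)) then Additive.ofMul (ClassGroup.mk0 ⟨I, h⟩) else 0

/-- The class of a Mumford vector. -/
def clC {F : Type} [Field F] (f : F[X]) [Fact (Odd f.natDegree)] [IsDedekindDomain (Q F f)]
    (q : Fin 4 → F) : Additive (ClassGroup (Q F f)) :=
  clI f (MI f (pA q) (pB q))

/-- The class `z - ∞` of a point. -/
def thC {F : Type} [Field F] (f : F[X]) [Fact (Odd f.natDegree)] [IsDedekindDomain (Q F f)]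
    (z : Pt f) : Additive (ClassGroup (Q F f)) :=
  clI f (MI f (X - C z.a) (C z.b))

end

/-- **Row IML** (ideals). `MI f A B = (A, y - B)`. PROOF. (3) `y - L = (y - B) - (L - B)` and `L - B` is a
multiple of `A`. (2) By (3) both ideals may be written with `L`. The product is
`(A1 A2, A1 (y - L), A2 (y - L), (y - L)^2)`, contained in `(A1 A2, y - L)`; it contains
`(y - L)(A1, A2) = (y - L)` because `A1, A2` are coprime. (1) `(y - L)(y + L) = f - L^2 = - c A A'`. The
product of the ideals is `(A A', A (y - L), A' (y - L), (y - L)^2) = (y - L) (y + L, A, A', y - L)`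
(`A A' = - c^(-1) (y - L)(y + L)`). The second ideal contains `A, A', 2 L`; if a prime `π` of `F[x]`
divides `A, A'` and `L`, then `π^2` divides `L^2 - c A A' = f`: contradiction; so it is `(1)`. -/
def ImlStatement : Prop :=
  (∀ (F : Type) [Field F] (f L A A' : F[X]) (c : F), (2 : F) ≠ 0 → Squarefree f → c ≠ 0 →
    L ^ 2 - f = C c * (A * A') →
    MI f A L * MI f A' L = Ideal.span {(⟨-L, 1⟩ : Q F f)}) ∧
  (∀ (F : Type) [Field F] (f A1 B1 A2 B2 L : F[X]), IsCoprime A1 A2 → A1 ∣ B1 ^ 2 - f →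
    A2 ∣ B2 ^ 2 - f → A1 ∣ L - B1 → A2 ∣ L - B2 →
    MI f A1 B1 * MI f A2 B2 = MI f (A1 * A2) L) ∧
  (∀ (F : Type) [Field F] (f A B L : F[X]), A ∣ L - B → MI f A L = MI f A B)

/-- **Row JGA** (the points; uses SZT.Mii, SZT.Unq, SZT.Pai). All ideals `MI f A B` are not 0 (they contain
`y - B`). `clI` is multiplicative: `clI (I I') = clI I + clI I'` for `I, I' <> 0`, `clI I = 0` iff `I` is
principal, `clI I = clI I'` iff `SameCl I I'` (`ClassGroup.mk0_eq_mk0_iff`). PROOF. `th_neg`: MII:
`MI (X-a, b) MI (X-a, -b) = (X - a)`. `th_ne`: UNQ with `A' = 1`, `B' = 0` (unit ideal). `th_inj`: UNQ.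
`th_pair`: PAI (the product is not principal because the sum of the classes is not 0). -/
def JgaStatement : Prop :=
  ∀ (F : Type) [Field F] [CharZero F] (f : F[X]) [Fact (Odd f.natDegree)]
    [IsDedekindDomain (Q F f)], f.Monic → f.natDegree = 5 → Squarefree f →
    (∀ z, thC f z.neg = - thC f z) ∧ (∀ z, thC f z ≠ 0) ∧ (∀ z w, thC f z = thC f w → z = w) ∧
    ∀ z w z' w', thC f z + thC f w = thC f z' + thC f w' → thC f z + thC f w ≠ 0 →
      (z = z' ∧ w = w') ∨ (z = w' ∧ w = z')

/-- **Row JGB** (the Mumford vectors; uses SZT.Mii, SZT.Unq, SZT.Rex). PROOF. `On f q` iff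
`Mum f (pA q) (pB q)` (`pA q` is monic of degree 2, `deg pB q <= 1`), and every `Mum f A B` with
`deg A = 2` is of this form: `q = (-A_1, A_0, B_0, B_1)`. `cl_inj`: UNQ. `cl_ngv`: MII (`pB (ngv q) =
- pB q`). `cl_ne`: UNQ with `A' = 1`. `cl_th`: UNQ (degrees 2 and 1). `cover`: REX: `deg A = 0`:
`A = 1`, unit ideal; `deg A = 1`: `A = X - a`, `B = b`, `b^2 = f(a)`; `deg A = 2`. The last statement:
`cover` over `F`. -/
def JgbStatement : Prop :=
  ∀ (F : Type) [Field F] [CharZero F] (f : F[X]) [Fact (Odd f.natDegree)]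
    [IsDedekindDomain (Q F f)], f.Monic → f.natDegree = 5 → Squarefree f →
    (∀ q t, On f q → On f t → clC f q = clC f t → q = t) ∧
    (∀ q, On f q → On f (ngv q) ∧ clC f (ngv q) = - clC f q) ∧ (∀ q, On f q → clC f q ≠ 0) ∧
    (∀ q z, On f q → clC f q ≠ thC f z) ∧
    ∀ c, c = 0 ∨ (∃ z, c = thC f z) ∨ ∃ q, On f q ∧ c = clC f q

/-- **Row JGC** (sums; uses IML, CMA, SZT.Pro). PROOF. `split`: `a = z.a`, `a' = w.a`. If `a <> a'`: IML (2)
with `A1 = X - a`, `B1 = C z.b`, `A2 = X - a'`, `B2 = C w.b`, `L = pB q`. If `a = a'`, then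
`z.b = B(a) = w.b =: b`, and `b <> 0` (otherwise `(X-a)^2` divides `B^2` and `B^2 - f`); PRO for
`A = A' = X - a`, `B = B' = C b` gives `B''` with `MI (X-a, b)^2 = MI ((X-a)^2, B'')`, and
`B'' = pB q` mod `(X - a)^2`: both are `b` at `a` and both squares are `f` mod `(X-a)^2`, so
`(B'' - pB q)(B'' + pB q)` is divisible by `(X-a)^2` and `B'' + pB q` is `2 b <> 0` at `a`. `comp`:
`L = lin q t`, `c = l3^2`: by CMA `L^2 - f = c (A_q A_t) A'`. IML (2): `MI q · MI t = MI (A_q A_t, L)`; IML
(1): `MI (A_q A_t, L) · MI (A', L) = (y - L)`. `MI (A', L) = MI (A', -pB (cmp ..))` (IML (3), CMA) has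
the class `- clC (cmp ..)` (MII for `cmp ..`, i.e. JGB; prove it from SZT.Mii). `exc`: `L^2 - f = -(A_q A_t)(X - a)`; the same with
`A' = X - a`: the sum of the classes is the negative of the class of `MI (X - a, L(a))`, i.e.
`th z` with `z = (a, - L(a))`. -/
def JgcStatement : Prop :=
  ∀ (F : Type) [Field F] [CharZero F] (f : F[X]) [Fact (Odd f.natDegree)]
    [IsDedekindDomain (Q F f)], f.Monic → f.natDegree = 5 → Squarefree f →
    (∀ (q : Fin 4 → F) (z w : Pt f), On f q → pA q = (X - C z.a) * (X - C w.a) →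
      (pB q).eval z.a = z.b → (pB q).eval w.a = w.b → clC f q = thC f z + thC f w) ∧
    (∀ q t, On f q → On f t → rr q t ≠ 0 → ro q t ≠ 0 →
      On f (cmp (f.coeff 4) q t) ∧ clC f q + clC f t = clC f (cmp (f.coeff 4) q t)) ∧
    (∀ q t, On f q → On f t → rr q t ≠ 0 → ro q t = 0 →
      clC f q + clC f t = 0 ∨ ∃ z, clC f q + clC f t = thC f z)

/-- **Row FUN** (functoriality; uses UBT.BC1Stmt (proved)). PROOF. Substitute `g = f.map φ`;
`ψ = Q.map φ f : Q F f ->+* Q E (f.map φ)` is injective (`ψ ⟨U, W⟩ = ⟨U.map φ, W.map φ⟩`). `I -> I.map ψ`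
is multiplicative on ideals and maps nonzero ideals to nonzero ideals; `(a) I = (b) J` implies
`(ψ a) I.map = (ψ b) J.map`. So `m (mk0 I) = mk0 (I.map ψ)` is well defined on classes
(`ClassGroup.mk0_surjective`, `ClassGroup.mk0_eq_mk0_iff`) and a homomorphism; injective by BC1
(`I.map ψ` principal implies `I` principal). `(MI f A B).map ψ = MI g (A.map φ) (B.map φ)`
(generators). -/
def FunStatement : Prop :=
  ∀ (F E : Type) [Field F] [Field E] [CharZero F] [CharZero E] (φ : F →+* E) (f : F[X]) (g : E[X]),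
    g = f.map φ → f.Monic → f.natDegree = 5 → Squarefree f →
    ∀ [Fact (Odd f.natDegree)] [Fact (Odd g.natDegree)] [IsDedekindDomain (Q F f)]
      [IsDedekindDomain (Q E g)],
    ∃ m : Additive (ClassGroup (Q F f)) →+ Additive (ClassGroup (Q E g)), Function.Injective m ∧
      ∀ A B : F[X], m (clI f (MI f A B)) = clI g (MI g (A.map φ) (B.map φ))

/-- **Row JKE** (the Jacobian over `U`; uses JGA, JGB, JGC, FUN, EMB, UBT.DedStmt (proved)). PROOF.
`g = f.map` is monic of degree 5, squarefree (`f` is separable, char 0), `Q U g` is a Dedekind domain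
(DED). `J = Additive (ClassGroup (Q U g))`, `th = thC g`, `cl = clC g`: `JG` by JGA, JGB, JGC. `act σ` = the
map of FUN for `φ = σ` (`g.map σ = g` since `g` has coefficients in `k`): it maps the class of
`MI g A B` to the class of `MI g (A.map σ) (B.map σ)`, which is `act_th`, `act_cl` (`On` is preserved).
`ι` = the map of FUN for `φ = algebraMap k U`, `Jk` = its range. `mem_k`: `cover` over `k` (JGB for `f`,
`F = k`) and FUN: `ι (thC f z0) = thC g z` with `z` the image of `z0`; a point `z` of `g` with coordinates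
`a, b ∈ k` is the image of a point over `k`; `ι (clC f t) = clC g (emb U t)` (`pA (emb t) = (pA t).map`).
`act_k`: from `mem_k`, `act_th`, `act_cl` (`σ` fixes `k`). -/
def JkeStatement : Prop :=
  ∀ (k U : Type) [Field k] [Field U] [Algebra k U] (f : k[X]) (g : U[X]), Env k U f g →
    ∀ [Fact (Odd f.natDegree)] [IsDedekindDomain (Q k f)],
    ∃ (J : Type) (_ : AddCommGroup J) (th : Pt g → J) (cl : (Fin 4 → U) → J)
      (act : (U ≃ₐ[k] U) → J →+ J) (Jk : AddSubgroup J)
      (ι : Additive (ClassGroup (Q k f)) →+ J),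
      JK f g J th cl act Jk ∧ Function.Injective ι ∧ ι.range = Jk ∧
      ∀ t : Fin 4 → k, On f t → ι (clC f t) = cl (emb U t)

end Pool.Agent.KDT.Z
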